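import Pool.Agent.Lib.H97Proj.Meas

/-!
Measurability and uniformization give capacitability.
-/

set_option autoImplicit false

namespace H99Cap

open MeasureTheory Set Topology Filter H97Proj
open scoped ENNReal

/-- Lusin's theorem in the form used here: a null measurable function on a null measurable set
maps countably many compact sets, in a topology finer than the given one, to compact sets, and
these sets exhaust the given set up to a null set. -/
theorem exists_compacts (g : Baire → Baire) (hg : NullMeasurable g lam) (Z : Set Baire)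
    (hZ : NullMeasurableSet Z lam) :
    ∃ K : ℕ → Set Baire, (∀ m, K m ⊆ Z) ∧ (∀ m, IsCompact (g '' K m)) ∧
      lam (Z \ ⋃ m, K m) = 0 := by
  obtain ⟨g', hg', hgg⟩ := hg.aemeasurable
  obtain ⟨T, hTs, hTm, hTe⟩ := hZ.exists_measurable_subset_ae_eq
  obtain ⟨E, hEs, hEm, hEe⟩ : ∃ E : Set Baire, E ⊆ {y | g y = g' y} ∧ MeasurableSet E ∧
      lam Eᶜ = 0 := by
    have h1 : lam {y | g y = g' y}ᶜ = 0 := hgg
    refine ⟨(toMeasurable lam {y | g y = g' y}ᶜ)ᶜ, ?_, (measurableSet_toMeasurable _ _).compl, ?_⟩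
    · rw [compl_subset_comm]
      exact subset_toMeasurable _ _
    · rw [compl_compl, measure_toMeasurable, h1]
  set Z' : Set Baire := T ∩ E with hZ'
  have hZ'm : MeasurableSet Z' := hTm.inter hEm
  have hmeq : (MeasurableSpace.pi : MeasurableSpace Baire) = @borel Baire Pi.topologicalSpace :=
    BorelSpace.measurable_eq
  have hP0 : PolishSpace Baire := inferInstance
  obtain ⟨t', ht', hc', hp'⟩ := hg'.exists_continuous
  have hB : @BorelSpace Baire t' _ :=
    @BorelSpace.mk Baire t' _ (hmeq.trans (borel_eq_borel_of_le hp' hP0 ht').symm)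
  have hin := @innerRegular_isCompact_isClosed_measurableSet_of_finite Baire _ t'
    (@PolishSpace.toSecondCountableTopology _ t' hp')
    (@PolishSpace.toIsCompletelyMetrizableSpace _ t' hp').toIsCompletelyPseudoMetrizableSpace hB lam _
  have hreg : ∀ m : ℕ, ∃ K ⊆ Z', @IsCompact Baire t' K ∧ lam (Z' \ K) ≤ (2 : ℝ≥0∞)⁻¹ ^ m := by
    intro m
    by_cases h0 : lam Z' = 0
    · exact ⟨∅, empty_subset _, @isCompact_empty Baire t', by simp [h0]⟩
    · have hlt : lam Z' - (2 : ℝ≥0∞)⁻¹ ^ m < lam Z' :=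
        ENNReal.sub_lt_self (measure_ne_top _ _) h0 (pow_ne_zero _ (by norm_num))
      obtain ⟨K, hKZ, ⟨hKc, hKcl⟩, hKl⟩ := hin hZ'm _ hlt
      refine ⟨K, hKZ, hKc, ?_⟩
      have hKm : MeasurableSet K := @IsClosed.measurableSet Baire K t' _ hB.opensMeasurable hKcl
      rw [measure_sdiff hKZ hKm.nullMeasurableSet (measure_ne_top _ _)]
      rw [tsub_le_iff_left]
      have := tsub_le_iff_right.1 hKl.le
      exact this
  choose K hKZ hKc hKl using hreg
  refine ⟨K, fun m => (hKZ m).trans (inter_subset_left.trans hTs), fun m => ?_, ?_⟩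
  · have h1 : g '' K m = g' '' K m := by
      apply image_congr
      intro y hy
      exact hEs (hKZ m hy).2
    rw [h1]
    exact @IsCompact.image Baire Baire t' Pi.topologicalSpace (K m) g' (hKc m) hc'
  · have h1 : lam (Z' \ ⋃ m, K m) = 0 := by
      refine le_antisymm ?_ zero_le
      refine le_of_tendsto_of_tendsto' tendsto_const_nhds
        (ENNReal.tendsto_pow_atTop_nhds_zero_of_lt_one (by norm_num : (2 : ℝ≥0∞)⁻¹ < 1)) ?_
      intro m
      exact (measure_mono (sdiff_subset_sdiff_right (subset_iUnion K m))).trans (hKl m)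
    have h2 : Z \ ⋃ m, K m ⊆ (Z \ T) ∪ Eᶜ ∪ (Z' \ ⋃ m, K m) := by
      rintro y ⟨hy, hyK⟩
      by_cases hT : y ∈ T
      · by_cases hE : y ∈ E
        · exact Or.inr ⟨⟨hT, hE⟩, hyK⟩
        · exact Or.inl (Or.inr hE)
      · exact Or.inl (Or.inl ⟨hy, hT⟩)
    refine measure_mono_null h2 ?_
    refine measure_union_null (measure_union_null ?_ hEe) h1
    exact ae_le_set.1 hTe.symm.le

/-- Main theorem of this file. -/
theorem capac {n k : ℕ} (hk : 1 ≤ k)
    (hLM : ∀ A : Set Baire, IsSigma k Baire A → NullMeasurableSet A lam)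
    (hU : ∀ R : Set (Baire × Baire), IsPi n (Baire × Baire) R →
      ∃ S ⊆ R, IsSigma k (Baire × Baire) S ∧
        ∀ x, (∃ y, (x, y) ∈ R) → ∃! y, (x, y) ∈ S)
    (N : Set (Baire × Baire)) (hN : IsPi n (Baire × Baire) N)
    (A : Set Baire) (hA : IsSigma (n + 1) Baire A) :
    ∃ P : ℕ → Set Baire, (∀ m, IsCompact (P m)) ∧ (∀ m, P m ⊆ A) ∧
      lam ({y | ∃ x ∈ A, (x, y) ∈ N} \ ⋃ m, {y | ∃ x ∈ P m, (x, y) ∈ N}) = 0 := by
  classical
  obtain ⟨k, rfl⟩ : ∃ k', k = k' + 1 := ⟨k - 1, by omega⟩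
  obtain ⟨B, hB, rfl⟩ := hA
  let R : Set (Baire × Baire) := {p | (lft p.2, rgt p.2) ∈ B ∧ (lft p.2, p.1) ∈ N}
  have hR : IsPi n (Baire × Baire) R := by
    have h1 : Rᶜ = (fun p : Baire × Baire => (lft p.2, rgt p.2)) ⁻¹' Bᶜ ∪
        (fun p : Baire × Baire => (lft p.2, p.1)) ⁻¹' Nᶜ := by
      ext p
      simp only [R, mem_compl_iff, mem_setOf_eq, mem_union, mem_preimage]
      tauto
    change IsSigma n (Baire × Baire) Rᶜ
    rw [h1]
    refine IsSigma.union (IsSigma.preimage ?_ hB) (IsSigma.preimage ?_ hN)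
    · exact (continuous_lft.comp continuous_snd).prodMk (continuous_rgt.comp continuous_snd)
    · exact (continuous_lft.comp continuous_snd).prodMk continuous_fst
  obtain ⟨S, hSR, hS, huniq⟩ := hU R hR
  have hfun : ∀ z u v, (z, u) ∈ S → (z, v) ∈ S → u = v := by
    intro z u v hu hv
    exact (huniq z ⟨u, hSR hu⟩).unique hu hv
  let g : Baire → Baire := fun z => if h : ∃ u, (z, u) ∈ S then h.choose else 0
  have hgS : ∀ z, (∃ u, (z, u) ∈ S) → (z, g z) ∈ S := by
    intro z h
    simp only [g, dif_pos h]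
    exact h.choose_spec
  let Z : Set Baire := {z | ∃ u, (z, u) ∈ S}
  have hZ : NullMeasurableSet Z lam := hLM _ hS.proj
  have hcyl : ∀ i j, NullMeasurableSet {z | ∃ u : Baire, (z, u) ∈ S ∧ u i = j} lam := by
    intro i j
    apply hLM
    have hcl : IsClopen {p : Baire × Baire | p.2 i = j} :=
      (isClopen_discrete {j}).preimage (by fun_prop : Continuous fun p : Baire × Baire => p.2 i)
    exact (hS.inter (isSigma_of_isClopen (k + 1) _ _ hcl)).proj
  have hg : NullMeasurable g lam := by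
    have h1 : ∀ i, NullMeasurable (fun z => g z i) lam := by
      intro i s _
      have h2 : (fun z => g z i) ⁻¹' s = ⋃ j ∈ s, {z | g z i = j} := by
        ext z; simp
      rw [h2]
      refine NullMeasurableSet.biUnion (to_countable s) fun j _ => ?_
      have h3 : {z | g z i = j} = {z | ∃ u : Baire, (z, u) ∈ S ∧ u i = j} ∪
          (Zᶜ ∩ {_z | (0 : Baire) i = j}) := by
        ext z
        simp only [mem_setOf_eq, mem_union, mem_inter_iff, mem_compl_iff, Z]
        by_cases hz : ∃ u, (z, u) ∈ S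
        · constructor
          · intro h
            exact Or.inl ⟨g z, hgS z hz, h⟩
          · rintro (⟨u, hu, h⟩ | ⟨h, -⟩)
            · rwa [hfun z (g z) u (hgS z hz) hu]
            · exact absurd hz h
        · have h0 : g z = 0 := by simp only [g, dif_neg hz]
          rw [h0]
          constructor
          · intro h
            exact Or.inr ⟨hz, h⟩
          · rintro (⟨u, hu, h⟩ | ⟨-, h⟩)
            · exact absurd ⟨u, hu⟩ hz
            · exact h
      rw [h3]
      exact (hcyl i j).union (hZ.compl.inter (by simp))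
    have h2 : AEMeasurable g lam := aemeasurable_pi_iff.2 fun i => (h1 i).aemeasurable
    exact h2.nullMeasurable
  obtain ⟨K, hKZ, hKc, hK0⟩ := exists_compacts g hg Z hZ
  refine ⟨fun m => lft '' (g '' K m), fun m => (hKc m).image continuous_lft, ?_, ?_⟩
  · rintro m _ ⟨_, ⟨y, hy, rfl⟩, rfl⟩
    exact ⟨_, (hSR (hgS y (hKZ m hy))).1, rfl⟩
  · refine measure_mono_null ?_ hK0
    rintro y ⟨⟨x, ⟨⟨x', w⟩, hxw, rfl⟩, hxy⟩, hy2⟩
    refine ⟨?_, ?_⟩
    · obtain ⟨u, hu, -⟩ := huniq y ⟨join x' w, by simpa [R] using ⟨hxw, hxy⟩⟩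
      exact ⟨u, hu⟩
    · intro hyK
      apply hy2
      obtain ⟨m, hm⟩ := mem_iUnion.1 hyK
      refine mem_iUnion.2 ⟨m, ⟨lft (g y), ⟨g y, ⟨y, hm, rfl⟩, rfl⟩, ?_⟩⟩
      exact (hSR (hgS y (hKZ m hm))).2

end H99Cap
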