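import Pool.Agent.Lib.H99Cap.HdDefs

/-!
(III) Hausdorff dimension, piece HdComp: a countable set of bad nodes from compactness.
-/

set_option autoImplicit false

namespace H99Cap

open MeasureTheory Set Topology Filter H97Proj
open scoped ENNReal NNReal

lemma isClosed_conn (a : ℕ) (s : List ℕ) : IsClosed {y : Baire | conn a y s} := by
  induction s with
  | nil =>
    have : {y : Baire | conn a y []} = univ := by
      ext y; simp [conn]
    rw [this]
    exact isClosed_univ
  | cons i s ih =>
    have : {y : Baire | conn a y (i :: s)} =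
        (fun y : Baire => y (Encodable.encode (i :: s))) ⁻¹' {k | a ≤ k} ∩
          {y : Baire | conn a y s} := by
      ext y
      rfl
    rw [this]
    exact ((isClosed_discrete _).preimage (continuous_apply _)).inter ih

lemma conn_res_mono (a : ℕ) (x y : Baire) {m n : ℕ} (h : m ≤ n)
    (hc : conn a y (PiNat.res x n)) : conn a y (PiNat.res x m) := by
  induction n, h using Nat.le_induction with
  | base => exact hc
  | succ n _ ih =>
    rw [PiNat.res_succ] at hc
    exact ih hc.2

/-- PIECE HdComp. -/
theorem exists_G (a D : ℕ) (A : Set Baire)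
    (h0 : lam {y | ∃ x ∈ A, ∀ m, conn a y (PiNat.res x m)} = 0) (δ : ℝ≥0∞) (hδ : δ ≠ 0) :
    ∃ G : Set (List ℕ), (∀ x ∈ A, ∃ m, PiNat.res x m ∈ G) ∧
      lam {y | ∃ s ∈ G, (∀ i ∈ s, i < D) ∧ conn a y s} ≤ δ := by
  set W : Set Baire := {y | ∃ x ∈ A, ∀ m, conn a y (PiNat.res x m)} with hW
  have hT : lam (toMeasurable lam W) = 0 := by rw [measure_toMeasurable, h0]
  have hm : MeasurableSet (toMeasurable lam W)ᶜ := (measurableSet_toMeasurable _ _).compl
  have h1 : lam (toMeasurable lam W)ᶜ = 1 := by
    rw [prob_compl_eq_one_sub (measurableSet_toMeasurable _ _), hT, tsub_zero]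
  have h2 : 1 - δ < lam (toMeasurable lam W)ᶜ := by
    rw [h1]
    exact ENNReal.sub_lt_self (by simp) (by simp) hδ
  obtain ⟨K, hK, ⟨hKc, hKcl⟩, hK0⟩ :=
    innerRegular_isCompact_isClosed_measurableSet_of_finite lam hm (1 - δ) h2
  refine ⟨{s | ∀ y ∈ K, ¬ conn a y s}, fun x hx => ?_, ?_⟩
  · have hcov : K ⊆ ⋃ m, {y : Baire | ¬ conn a y (PiNat.res x m)} := by
      intro y hy
      by_contra hcon
      rw [mem_iUnion] at hcon
      push Not at hcon
      apply hK hy
      apply subset_toMeasurable
      refine ⟨x, hx, fun m => ?_⟩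
      have := hcon m
      simpa using this
    obtain ⟨m, hm'⟩ := hKc.elim_directed_cover _
      (fun m => (isClosed_conn a (PiNat.res x m)).isOpen_compl) hcov
      (by
        refine (monotone_nat_of_le_succ fun n => ?_).directed_le
        intro y hy hc
        exact hy (conn_res_mono a x y (Nat.le_succ n) hc))
    exact ⟨m, fun y hy => hm' hy⟩
  · calc lam {y | ∃ s ∈ {s | ∀ y ∈ K, ¬ conn a y s}, (∀ i ∈ s, i < D) ∧ conn a y s}
        ≤ lam Kᶜ := by
          apply measure_mono
          rintro y ⟨s, hs, -, hc⟩ hy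
          exact hs y hy hc
      _ = 1 - lam K := prob_compl_eq_one_sub hKcl.measurableSet
      _ ≤ δ := by
          rw [tsub_le_iff_right]
          have := tsub_le_iff_right.1 hK0.le
          rwa [add_comm] at this

end H99Cap
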