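import Pool.Agent.Lib.H99Cap.HdDefs

/-!
The probability that a node is connected to the root.
-/

set_option autoImplicit false

namespace H99Cap

open MeasureTheory Set Topology Filter H97Proj
open scoped ENNReal NNReal

/-- the codes of the nonempty tails of `s` -/
def hdCodes : List ℕ → Finset ℕ
  | [] => ∅
  | i :: s => insert (Encodable.encode (i :: s)) (hdCodes s)

lemma hdCodes_mem (s : List ℕ) (c : ℕ) (h : c ∈ hdCodes s) :
    ∃ t : List ℕ, t.length ≤ s.length ∧ Encodable.encode t = c := by
  induction s with
  | nil => simp [hdCodes] at h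
  | cons i s ih =>
    rw [hdCodes, Finset.mem_insert] at h
    rcases h with h | h
    · exact ⟨i :: s, le_rfl, h.symm⟩
    · obtain ⟨t, ht, he⟩ := ih h
      exact ⟨t, ht.trans (by simp), he⟩

lemma hdCodes_card (s : List ℕ) : (hdCodes s).card = s.length := by
  induction s with
  | nil => rfl
  | cons i s ih =>
    rw [hdCodes, Finset.card_insert_of_notMem, ih, List.length_cons]
    intro h
    obtain ⟨t, ht, he⟩ := hdCodes_mem s _ h
    have := Encodable.encode_injective he
    rw [this, List.length_cons] at ht
    omega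

lemma conn_iff_codes (a : ℕ) (y : Baire) (s : List ℕ) :
    conn a y s ↔ ∀ c ∈ hdCodes s, a ≤ y c := by
  induction s with
  | nil => simp [conn, hdCodes]
  | cons i s ih =>
    rw [conn, hdCodes, Finset.forall_mem_insert, ih]

/-- PIECE HdConn. lam_pi for the codes of the nonempty tails of s, geo_tail. -/
theorem lam_conn (a : ℕ) (s : List ℕ) :
    lam {y | conn a y s} = ((2 : ℝ≥0∞)⁻¹ ^ a) ^ s.length := by
  have h1 : {y : Baire | conn a y s} = {y | ∀ c ∈ hdCodes s, y c ∈ {k : ℕ | a ≤ k}} := by
    ext y
    exact conn_iff_codes a y s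
  rw [h1, lam_pi (hdCodes s) (fun _ => {k : ℕ | a ≤ k}), Finset.prod_const, geo_tail,
    hdCodes_card]

end H99Cap
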