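import Pool.Agent.Lib.H99Cap.HdDefs

/-!
Tree percolation: a cover of small cost from a small content.
-/

set_option autoImplicit false

namespace H99Cap

open MeasureTheory Set Topology Filter H97Proj
open scoped ENNReal NNReal

lemma hh_nonneg {D : ℕ} {p : ℝ} (hp0 : 0 < p) (G : Set (List ℕ)) (m : ℕ) (s : List ℕ) :
    0 ≤ hh D p G m s := by
  induction m generalizing s with
  | zero => unfold hh; split_ifs <;> norm_num
  | succ m ih =>
    unfold hh
    split_ifs
    · norm_num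
    · exact le_min zero_le_one (mul_nonneg hp0.le (Finset.sum_nonneg fun i _ => ih _))

lemma hh_le_one (D : ℕ) (p : ℝ) (G : Set (List ℕ)) (m : ℕ) (s : List ℕ) :
    hh D p G m s ≤ 1 := by
  cases m with
  | zero => unfold hh; split_ifs <;> norm_num
  | succ m =>
    unfold hh
    split_ifs
    · exact le_rfl
    · exact min_le_left _ _

lemma hh_succ_le {D : ℕ} {p : ℝ} (hp0 : 0 < p) (G : Set (List ℕ)) (m : ℕ) (s : List ℕ) :
    hh D p G m s ≤ hh D p G (m + 1) s := by
  induction m generalizing s with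
  | zero =>
    by_cases hs : s ∈ G
    · simp [hh, hs]
    · have h0 : hh D p G 0 s = 0 := by simp [hh, hs]
      rw [h0]
      exact hh_nonneg hp0 G _ s
  | succ m ih =>
    by_cases hs : s ∈ G
    · simp [hh, hs]
    · rw [hh, hh]
      simp only [if_neg hs]
      exact min_le_min le_rfl
        (mul_le_mul_of_nonneg_left (Finset.sum_le_sum fun i _ => ih _) hp0.le)

lemma hh_mono {D : ℕ} {p : ℝ} (hp0 : 0 < p) (G : Set (List ℕ)) (s : List ℕ) :
    Monotone fun m => hh D p G m s :=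
  monotone_nat_of_le_succ fun m => hh_succ_le hp0 G m s

/-- the content -/
noncomputable def hc (D : ℕ) (p : ℝ) (G : Set (List ℕ)) (s : List ℕ) : ℝ := ⨆ m, hh D p G m s

lemma bdd_hh (D : ℕ) (p : ℝ) (G : Set (List ℕ)) (s : List ℕ) :
    BddAbove (range fun m => hh D p G m s) :=
  ⟨1, by rintro _ ⟨m, rfl⟩; exact hh_le_one D p G m s⟩

lemma hh_le_hc (D : ℕ) (p : ℝ) (G : Set (List ℕ)) (m : ℕ) (s : List ℕ) :
    hh D p G m s ≤ hc D p G s := le_ciSup (bdd_hh D p G s) m

lemma hc_le_one (D : ℕ) (p : ℝ) (G : Set (List ℕ)) (s : List ℕ) : hc D p G s ≤ 1 :=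
  ciSup_le fun m => hh_le_one D p G m s

lemma hc_nonneg {D : ℕ} {p : ℝ} (hp0 : 0 < p) (G : Set (List ℕ)) (s : List ℕ) :
    0 ≤ hc D p G s := (hh_nonneg hp0 G 0 s).trans (hh_le_hc D p G 0 s)

lemma hc_of_mem (D : ℕ) (p : ℝ) {G : Set (List ℕ)} {s : List ℕ} (hs : s ∈ G) :
    hc D p G s = 1 := by
  refine le_antisymm (hc_le_one D p G s) ?_
  have h := hh_le_hc D p G 0 s
  simpa [hh, hs] using h

lemma tendsto_hh {D : ℕ} {p : ℝ} (hp0 : 0 < p) (G : Set (List ℕ)) (s : List ℕ) :
    Tendsto (fun m => hh D p G m s) atTop (𝓝 (hc D p G s)) :=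
  tendsto_atTop_ciSup (hh_mono hp0 G s) (bdd_hh D p G s)

lemma sum_hc_le {D : ℕ} {p : ℝ} (hp0 : 0 < p) (G : Set (List ℕ)) {s : List ℕ}
    (hs : hc D p G s ≠ 1) :
    p * ∑ i ∈ Finset.range D, hc D p G (i :: s) ≤ hc D p G s := by
  have hlt : hc D p G s < 1 := lt_of_le_of_ne (hc_le_one D p G s) hs
  have hG : s ∉ G := fun h => hs (hc_of_mem D p h)
  have hT : Tendsto (fun m => p * ∑ i ∈ Finset.range D, hh D p G m (i :: s)) atTop
      (𝓝 (p * ∑ i ∈ Finset.range D, hc D p G (i :: s))) :=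
    (tendsto_finsetSum _ fun i _ => tendsto_hh hp0 G (i :: s)).const_mul p
  refine le_of_tendsto' hT fun m => ?_
  have h1 := hh_le_hc D p G (m + 1) s
  rw [hh] at h1
  simp only [if_neg hG] at h1
  rcases le_total 1 (p * ∑ i ∈ Finset.range D, hh D p G m (i :: s)) with h2 | h2
  · rw [min_eq_left h2] at h1
    exact absurd h1 (not_le.2 hlt)
  · rwa [min_eq_right h2] at h1

open Classical in
/-- the first nodes below `s` with content one, at most `m` levels below -/
noncomputable def Qf (D : ℕ) (p : ℝ) (G : Set (List ℕ)) : ℕ → List ℕ → Finset (List ℕ)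
  | 0, s => if hc D p G s = 1 then {s} else ∅
  | m + 1, s => if hc D p G s = 1 then {s} else
      (Finset.range D).biUnion fun i => Qf D p G m (i :: s)

lemma Qf_succ (D : ℕ) (p : ℝ) (G : Set (List ℕ)) (m : ℕ) (s : List ℕ) :
    Qf D p G m s ⊆ Qf D p G (m + 1) s := by
  classical
  induction m generalizing s with
  | zero =>
    by_cases hs : hc D p G s = 1
    · simp [Qf, hs]
    · have h0 : Qf D p G 0 s = ∅ := by simp [Qf, hs]
      rw [h0]; exact Finset.empty_subset _
  | succ m ih =>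
    by_cases hs : hc D p G s = 1
    · simp [Qf, hs]
    · rw [Qf, Qf]
      simp only [if_neg hs]
      exact Finset.biUnion_mono fun i _ => ih _

lemma Qf_mono (D : ℕ) (p : ℝ) (G : Set (List ℕ)) (s : List ℕ) :
    Monotone fun m => Qf D p G m s :=
  monotone_nat_of_le_succ fun m => Qf_succ D p G m s

lemma sum_biUnion_le_aux {ι α : Type} [DecidableEq α] (F : Finset ι) (f : ι → Finset α)
    (g : α → ℝ) (hg : ∀ a, 0 ≤ g a) :
    ∑ t ∈ F.biUnion f, g t ≤ ∑ i ∈ F, ∑ t ∈ f i, g t := by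
  classical
  induction F using Finset.induction_on with
  | empty => simp
  | insert a F ha ih =>
    rw [Finset.biUnion_insert, Finset.sum_insert ha]
    have h1 := Finset.sum_union_inter (s₁ := f a) (s₂ := F.biUnion f) (f := g)
    have h2 : 0 ≤ ∑ t ∈ f a ∩ F.biUnion f, g t := Finset.sum_nonneg fun t _ => hg t
    linarith

lemma sum_Qf {D : ℕ} {p : ℝ} (hp0 : 0 < p) (G : Set (List ℕ)) (m : ℕ) (s : List ℕ) :
    ∑ t ∈ Qf D p G m s, p ^ t.length ≤ p ^ s.length * hc D p G s := by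
  classical
  induction m generalizing s with
  | zero =>
    by_cases hs : hc D p G s = 1
    · simp [Qf, hs]
    · have h0 : Qf D p G 0 s = ∅ := by simp [Qf, hs]
      rw [h0, Finset.sum_empty]
      exact mul_nonneg (pow_nonneg hp0.le _) (hc_nonneg hp0 G s)
  | succ m ih =>
    by_cases hs : hc D p G s = 1
    · simp [Qf, hs]
    · rw [Qf]
      simp only [if_neg hs]
      calc ∑ t ∈ (Finset.range D).biUnion fun i => Qf D p G m (i :: s), p ^ t.length
          ≤ ∑ i ∈ Finset.range D, ∑ t ∈ Qf D p G m (i :: s), p ^ t.length :=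
            sum_biUnion_le_aux _ _ _ fun _ => pow_nonneg hp0.le _
        _ ≤ ∑ i ∈ Finset.range D, p ^ (i :: s).length * hc D p G (i :: s) :=
            Finset.sum_le_sum fun i _ => ih _
        _ = p ^ s.length * (p * ∑ i ∈ Finset.range D, hc D p G (i :: s)) := by
            rw [← mul_assoc, Finset.mul_sum]
            refine Finset.sum_congr rfl fun i _ => ?_
            rw [List.length_cons, pow_succ]
        _ ≤ p ^ s.length * hc D p G s :=
            mul_le_mul_of_nonneg_left (sum_hc_le hp0 G hs) (pow_nonneg hp0.le _)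

lemma exists_mem_Qf {D : ℕ} {p : ℝ} {G : Set (List ℕ)} {x : Baire} (hx : x ∈ Dig D) (j : ℕ) :
    ∀ k, hc D p G (PiNat.res x (k + j)) = 1 → ∃ k', PiNat.res x k' ∈ Qf D p G j (PiNat.res x k) := by
  classical
  induction j with
  | zero =>
    intro k hk
    rw [add_zero] at hk
    exact ⟨k, by simp [Qf, hk]⟩
  | succ j ih =>
    intro k hk
    by_cases hs : hc D p G (PiNat.res x k) = 1
    · exact ⟨k, by simp [Qf, hs]⟩
    · obtain ⟨k', hk'⟩ := ih (k + 1) (by rw [show k + 1 + j = k + (j + 1) by ring]; exact hk)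
      refine ⟨k', ?_⟩
      rw [Qf]
      simp only [if_neg hs]
      exact Finset.mem_biUnion.2 ⟨x k, Finset.mem_range.2 (hx k), by
        rw [← PiNat.res_succ]; exact hk'⟩

theorem exists_cover (D : ℕ) (p : ℝ) (hp0 : 0 < p) (G : Set (List ℕ)) (ε : ℝ) (hε : ε < 1)
    (h : ∀ m, hh D p G m [] ≤ ε) :
    ∃ Q : Set (List ℕ), (∑' s : Q, ENNReal.ofReal (p ^ s.1.length)) ≤ ENNReal.ofReal ε ∧
      ∀ x ∈ Dig D, (∃ m, PiNat.res x m ∈ G) → ∃ m, PiNat.res x m ∈ Q := by
  classical
  have hc0 : hc D p G [] ≤ ε := ciSup_le h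
  refine ⟨⋃ m, (Qf D p G m [] : Set (List ℕ)), ?_, ?_⟩
  · rw [ENNReal.tsum_eq_iSup_sum]
    refine iSup_le fun F => ?_
    obtain ⟨M, hM⟩ : ∃ M, ∀ t ∈ F, t.1 ∈ Qf D p G M [] := by
      have h1 : ∀ t : (⋃ m, (Qf D p G m [] : Set (List ℕ)) : Set (List ℕ)),
          ∃ m, t.1 ∈ Qf D p G m [] := fun t => by
        obtain ⟨m, hm⟩ := Set.mem_iUnion.1 t.2
        exact ⟨m, hm⟩
      choose f hf using h1
      exact ⟨F.sup f, fun t ht => Qf_mono D p G [] (Finset.le_sup ht) (hf t)⟩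
    calc ∑ t ∈ F, ENNReal.ofReal (p ^ t.1.length)
        = ∑ t ∈ F.map (Function.Embedding.subtype _), ENNReal.ofReal (p ^ t.length) := by
          rw [Finset.sum_map]; rfl
      _ ≤ ∑ t ∈ Qf D p G M [], ENNReal.ofReal (p ^ t.length) := by
          refine Finset.sum_le_sum_of_subset ?_
          intro t ht
          obtain ⟨u, hu, rfl⟩ := Finset.mem_map.1 ht
          exact hM u hu
      _ = ENNReal.ofReal (∑ t ∈ Qf D p G M [], p ^ t.length) :=
          (ENNReal.ofReal_sum_of_nonneg fun _ _ => pow_nonneg hp0.le _).symm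
      _ ≤ ENNReal.ofReal ε := by
          refine ENNReal.ofReal_le_ofReal ((sum_Qf hp0 G M []).trans ?_)
          simpa using hc0
  · rintro x hx ⟨m, hm⟩
    obtain ⟨k', hk'⟩ := exists_mem_Qf (D := D) (p := p) (G := G) hx m 0 (by
      rw [zero_add]; exact hc_of_mem D p hm)
    exact ⟨k', Set.mem_iUnion.2 ⟨m, by simpa using hk'⟩⟩

end H99Cap
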