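import Pool.Agent.Lib.H97Proj.Meas

/-!
Tree percolation (definitions).
-/

set_option autoImplicit false

namespace H99Cap

open MeasureTheory Set Topology Filter H97Proj
open scoped ENNReal NNReal

/-- All nodes on the way from the root to `s` survive in `y` (nodes are reversed lists of digits,
the children of `s` are the lists `i :: s`; the node `s` survives if `a ≤ y (code of s)`). -/
def conn (a : ℕ) (y : Baire) : List ℕ → Prop
  | [] => True
  | i :: s => a ≤ y (Encodable.encode (i :: s)) ∧ conn a y s

/-- sequences of digits -/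
def Dig (D : ℕ) : Set Baire := {x | ∀ m, x m < D}

/-- the real number with digits `x` in base `D` -/
noncomputable def vv (D : ℕ) [NeZero D] (x : Baire) : ℝ :=
  Real.ofDigits fun m => Fin.ofNat D (x m)

/-- some node of `G`, at most `m` levels above `s`, is connected to `s` -/
def Ev (a D : ℕ) (G : Set (List ℕ)) : ℕ → List ℕ → Set Baire
  | 0, s => {_y | s ∈ G}
  | m + 1, s => {y | s ∈ G ∨ ∃ i < D, a ≤ y (Encodable.encode (i :: s)) ∧ y ∈ Ev a D G m (i :: s)}

open Classical in
/-- the truncated content -/
noncomputable def hh (D : ℕ) (p : ℝ) (G : Set (List ℕ)) : ℕ → List ℕ → ℝ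
  | 0, s => if s ∈ G then 1 else 0
  | m + 1, s => if s ∈ G then 1 else min 1 (p * ∑ i ∈ Finset.range D, hh D p G m (i :: s))

end H99Cap
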