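import Pool.Agent.Lib.H99Cap.HdDefs

/-!
PIECE HdGeom: a short set of reals meets the images of few cylinders.
-/

set_option autoImplicit false

namespace H99Cap

open MeasureTheory Set Topology Filter H97Proj
open scoped ENNReal NNReal

theorem head_sum (D : ℕ) [NeZero D] (x : Baire) (hx : x ∈ Dig D) (m : ℕ) :
    ∑ i ∈ Finset.range m, Real.ofDigitsTerm (fun m => Fin.ofNat D (x m)) i =
      ((Nat.ofDigits D (PiNat.res x m) : ℕ) : ℝ) * ((D : ℝ) ^ m)⁻¹ := by
  have hD0 : (D : ℝ) ≠ 0 := by exact_mod_cast NeZero.ne D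
  induction m with
  | zero => simp
  | succ m ih =>
    rw [Finset.sum_range_succ, ih, PiNat.res_succ, Nat.ofDigits_cons]
    have hv : ((Fin.ofNat D (x m) : Fin D) : ℕ) = x m := by
      rw [Fin.val_ofNat]
      exact Nat.mod_eq_of_lt (hx m)
    unfold Real.ofDigitsTerm
    rw [hv]
    push_cast
    field_simp
    ring

theorem vv_mem (D : ℕ) [NeZero D] (x : Baire) (hx : x ∈ Dig D) (m : ℕ) :
    ((Nat.ofDigits D (PiNat.res x m) : ℕ) : ℝ) * ((D : ℝ) ^ m)⁻¹ ≤ vv D x ∧
      vv D x ≤ (((Nat.ofDigits D (PiNat.res x m) : ℕ) : ℝ) + 1) * ((D : ℝ) ^ m)⁻¹ := by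
  unfold vv
  rw [Real.ofDigits_eq_sum_add_ofDigits _ m, head_sum D x hx m]
  have h0 : 0 ≤ ((D : ℝ) ^ m)⁻¹ := by positivity
  have h1 := Real.ofDigits_nonneg (fun i => (fun m => Fin.ofNat D (x m)) (i + m))
  have h2 := Real.ofDigits_le_one (fun i => (fun m => Fin.ofNat D (x m)) (i + m))
  constructor
  · nlinarith
  · nlinarith

/-- A set `U` of reals with diameter `≤ D^-m` meets the images of at most 4 cylinders of
length `m`. -/
theorem few_nodes (D : ℕ) [NeZero D] (hD : 1 < D) (m : ℕ) (U : Set ℝ)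
    (hU : Metric.ediam U ≤ ENNReal.ofReal (((D : ℝ) ^ m)⁻¹)) :
    ∃ F : Finset (List ℕ), F.card ≤ 4 ∧ (∀ s ∈ F, s.length = m) ∧
      ∀ x ∈ Dig D, vv D x ∈ U → PiNat.res x m ∈ F := by
  classical
  set e : ℝ := ((D : ℝ) ^ m)⁻¹ with he
  have hDm : (0 : ℝ) < (D : ℝ) ^ m := by
    have : (0 : ℝ) < D := by exact_mod_cast (by omega : 0 < D)
    positivity
  have he0 : 0 < e := inv_pos.2 hDm
  let S : Set (List ℕ) := {s | ∃ x ∈ Dig D, vv D x ∈ U ∧ PiNat.res x m = s}
  by_cases hS : S.Nonempty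
  swap
  · refine ⟨∅, by simp, by simp, fun x hx hxU => ?_⟩
    exact (hS ⟨_, x, hx, hxU, rfl⟩).elim
  -- choose the smallest value
  have hne : (Nat.ofDigits D '' S).Nonempty := hS.image _
  obtain ⟨s0, ⟨x0, hx0, hx0U, hs0⟩, hJ0⟩ := Nat.sInf_mem hne
  have hmin : ∀ s ∈ S, Nat.ofDigits D s0 ≤ Nat.ofDigits D s := by
    intro s hs
    rw [hJ0]
    exact Nat.sInf_le ⟨s, hs, rfl⟩
  have hmax : ∀ s ∈ S, Nat.ofDigits D s ≤ Nat.ofDigits D s0 + 2 := by
    rintro s ⟨x, hx, hxU, hs⟩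
    have hd : |vv D x - vv D x0| ≤ e := by
      have h1 : edist (vv D x) (vv D x0) ≤ ENNReal.ofReal e :=
        (Metric.edist_le_ediam_of_mem hxU hx0U).trans hU
      rw [edist_dist, ENNReal.ofReal_le_ofReal_iff he0.le] at h1
      rwa [Real.dist_eq] at h1
    have h1 := (vv_mem D x hx m).1
    have h2 := (vv_mem D x0 hx0 m).2
    rw [hs, ← he] at h1
    rw [hs0, ← he] at h2
    have h3 := (abs_le.1 hd).2
    have h4 : ((Nat.ofDigits D s : ℕ) : ℝ) * e ≤ (((Nat.ofDigits D s0 : ℕ) : ℝ) + 2) * e := by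
      nlinarith
    have h5 : ((Nat.ofDigits D s : ℕ) : ℝ) ≤ ((Nat.ofDigits D s0 : ℕ) : ℝ) + 2 :=
      le_of_mul_le_mul_right h4 he0
    exact_mod_cast h5
  have hinj : Set.InjOn (Nat.ofDigits D : List ℕ → ℕ) S := by
    rintro s ⟨x, hx, -, rfl⟩ s' ⟨x', hx', -, rfl⟩ h
    have hdig : ∀ (z : Baire), z ∈ Dig D → ∀ (k : ℕ), ∀ l ∈ PiNat.res z k, l < D := by
      intro z hz k
      induction k with
      | zero => simp
      | succ k ih =>
        intro l hl
        rw [PiNat.res_succ, List.mem_cons] at hl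
        rcases hl with rfl | hl
        · exact hz k
        · exact ih l hl
    exact Nat.ofDigits_inj_of_len_eq hD (by rw [PiNat.res_length, PiNat.res_length])
      (hdig x hx m) (hdig x' hx' m) h
  have hsub : Nat.ofDigits D '' S ⊆ (Finset.Icc (Nat.ofDigits D s0) (Nat.ofDigits D s0 + 2) :
      Finset ℕ) := by
    rintro j ⟨s, hs, rfl⟩
    rw [Finset.coe_Icc, Set.mem_Icc]
    exact ⟨hmin s hs, hmax s hs⟩
  have hfin : S.Finite := Set.Finite.of_finite_image ((Finset.finite_toSet _).subset hsub) hinj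
  refine ⟨hfin.toFinset, ?_, ?_, ?_⟩
  · have h1 : (hfin.toFinset.image (Nat.ofDigits D)).card = hfin.toFinset.card := by
      apply Finset.card_image_of_injOn
      intro a ha b hb hab
      exact hinj (by simpa using ha) (by simpa using hb) hab
    have h2 : hfin.toFinset.image (Nat.ofDigits D) ⊆
        Finset.Icc (Nat.ofDigits D s0) (Nat.ofDigits D s0 + 2) := by
      intro j hj
      rw [Finset.mem_image] at hj
      obtain ⟨s, hs, rfl⟩ := hj
      have hs' : s ∈ S := by simpa using hs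
      rw [Finset.mem_Icc]
      exact ⟨hmin s hs', hmax s hs'⟩
    have h3 := Finset.card_le_card h2
    rw [h1, Nat.card_Icc] at h3
    omega
  · intro s hs
    have hs' : s ∈ S := by simpa using hs
    obtain ⟨x, -, -, rfl⟩ := hs'
    exact PiNat.res_length x m
  · intro x hx hxU
    rw [Set.Finite.mem_toFinset]
    exact ⟨x, hx, hxU, rfl⟩

end H99Cap
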