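import Pool.Agent.Lib.H99Cap.HdDefs

/-!
Small covers by cylinders give Hausdorff measure zero.
-/

set_option autoImplicit false

namespace H99Cap

open MeasureTheory Set Topology Filter H97Proj
open scoped ENNReal NNReal

/-- the image of a cylinder -/
private noncomputable def hhB (D : ℕ) [NeZero D] (s : List ℕ) : Set ℝ :=
  vv D '' {x | PiNat.res x s.length = s}

private lemma ediam_hhB (D : ℕ) [NeZero D] (s : List ℕ) :
    Metric.ediam (hhB D s) ≤ ENNReal.ofReal (((D : ℝ) ^ s.length)⁻¹) := by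
  refine Metric.ediam_le ?_
  rintro _ ⟨x, hx, rfl⟩ _ ⟨y, hy, rfl⟩
  rw [edist_dist, Real.dist_eq]
  refine ENNReal.ofReal_le_ofReal ?_
  unfold vv
  refine Real.abs_ofDigits_sub_ofDigits_le fun i hi => ?_
  have h1 : PiNat.res x s.length = PiNat.res y s.length := by
    rw [mem_ofPred_eq] at hx hy
    rw [hx, hy]
  rw [PiNat.res_eq_res.1 h1 hi]

private lemma cost_eq (D : ℕ) (hD : 1 < D) (d : ℝ) (n : ℕ) :
    (ENNReal.ofReal (((D : ℝ) ^ n)⁻¹)) ^ d = ENNReal.ofReal (((D : ℝ) ^ (-d)) ^ n) := by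
  have hD0 : (0 : ℝ) < D := by positivity
  rw [ENNReal.ofReal_rpow_of_pos (by positivity)]
  congr 1
  rw [← Real.rpow_natCast ((D : ℝ) ^ (-d)) n, ← Real.rpow_mul hD0.le, ← Real.rpow_natCast,
    ← Real.rpow_neg hD0.le, ← Real.rpow_mul hD0.le]
  congr 1
  ring

theorem hausdorff_zero (D : ℕ) [NeZero D] (hD : 1 < D) (A : Set Baire) (hA : A ⊆ Dig D) (d : ℝ)
    (hd : 0 < d)
    (h : ∀ ε : ℝ, 0 < ε → ∃ Q : Set (List ℕ),
      (∑' s : Q, ENNReal.ofReal (((D : ℝ) ^ (-d)) ^ s.1.length)) ≤ ENNReal.ofReal ε ∧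
        ∀ x ∈ A, ∃ m, PiNat.res x m ∈ Q) :
    Measure.hausdorffMeasure d (vv D '' A) = 0 := by
  have hε : ∀ n : ℕ, (0 : ℝ) < 1 / ((n : ℝ) + 1) := fun n => by positivity
  choose Q hQ1 hQ2 using fun n : ℕ => h (1 / ((n : ℝ) + 1)) (hε n)
  have hcost : ∀ n (s : Q n), Metric.ediam (hhB D s.1) ^ d ≤
      ENNReal.ofReal (((D : ℝ) ^ (-d)) ^ s.1.length) := by
    intro n s
    rw [← cost_eq D hD d]
    exact ENNReal.rpow_le_rpow (ediam_hhB D s.1) hd.le
  have hlim0 : Tendsto (fun n : ℕ => ENNReal.ofReal (1 / ((n : ℝ) + 1))) atTop (𝓝 0) := by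
    have h1 := ENNReal.tendsto_ofReal tendsto_one_div_add_atTop_nhds_zero_nat
    rwa [ENNReal.ofReal_zero] at h1
  have hr : Tendsto (fun n : ℕ => (ENNReal.ofReal (1 / ((n : ℝ) + 1))) ^ d⁻¹) atTop (𝓝 0) := by
    have h1 := ((ENNReal.continuous_rpow_const (y := d⁻¹)).tendsto 0).comp hlim0
    rwa [ENNReal.zero_rpow_of_pos (inv_pos.2 hd)] at h1
  have hmain := Measure.hausdorffMeasure_le_liminf_tsum (ι := fun n : ℕ => Q n) d (vv D '' A) _ hr
    (fun n s => hhB D s.1) (Eventually.of_forall fun n s => by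
      show Metric.ediam (hhB D s.1) ≤ _
      rw [ENNReal.le_rpow_inv_iff hd]
      refine (hcost n s).trans ((ENNReal.le_tsum (f := fun s : Q n =>
        ENNReal.ofReal (((D : ℝ) ^ (-d)) ^ s.1.length)) s).trans (hQ1 n)))
    (Eventually.of_forall fun n => by
      rintro _ ⟨x, hx, rfl⟩
      obtain ⟨m, hm⟩ := hQ2 n x hx
      rw [mem_iUnion]
      refine ⟨⟨_, hm⟩, x, ?_, rfl⟩
      rw [mem_ofPred_eq, PiNat.res_length])
  have hle : (liminf (fun n : ℕ => ∑' s : Q n, Metric.ediam (hhB D s.1) ^ d) atTop) ≤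
      liminf (fun n : ℕ => ENNReal.ofReal (1 / ((n : ℝ) + 1))) atTop :=
    liminf_le_liminf (Eventually.of_forall fun n =>
      (ENNReal.tsum_le_tsum fun s => hcost n s).trans (hQ1 n))
  rw [hlim0.liminf_eq] at hle
  exact le_antisymm (hmain.trans hle) bot_le

end H99Cap
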