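import Pool.Agent.Lib.H99Cap.HdDefs

/-!
Tree percolation: independence.
-/

set_option autoImplicit false

namespace H99Cap

open MeasureTheory Set Topology Filter H97Proj ProbabilityTheory
open scoped ENNReal NNReal

/-- coordinate sigma-algebra -/
private def hdi_c (n : ℕ) : MeasurableSpace Baire :=
  MeasurableSpace.comap (fun y : Baire => y n) inferInstance

/-- sigma-algebra of the coordinates in `S` -/
private def hdi_sg (S : Set ℕ) : MeasurableSpace Baire := ⨆ n ∈ S, hdi_c n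

private lemma hdi_c_le (n : ℕ) : hdi_c n ≤ (inferInstance : MeasurableSpace Baire) := by
  intro A hA
  obtain ⟨t, ht, rfl⟩ := hA
  exact (measurable_pi_apply n) ht

private lemma hdi_sg_le (S : Set ℕ) : hdi_sg S ≤ (inferInstance : MeasurableSpace Baire) :=
  iSup₂_le fun n _ => hdi_c_le n

private lemma hdi_sg_mono {S T : Set ℕ} (h : S ⊆ T) : hdi_sg S ≤ hdi_sg T :=
  biSup_mono fun _ hn => h hn

private lemma hdi_one {S : Set ℕ} {n : ℕ} (hn : n ∈ S) (t : Set ℕ) :
    MeasurableSet[hdi_sg S] {y : Baire | y n ∈ t} := by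
  have h1 : hdi_c n ≤ hdi_sg S := le_iSup₂_of_le n hn le_rfl
  exact h1 _ ⟨t, MeasurableSet.of_discrete, rfl⟩

private lemma hdi_indep {S T : Set ℕ} (hST : Disjoint S T) {A B : Set Baire}
    (hA : MeasurableSet[hdi_sg S] A) (hB : MeasurableSet[hdi_sg T] B) :
    lam (A ∩ B) = lam A * lam B := by
  have h0 : iIndepFun (fun (i : ℕ) (ω : Baire) => ω i) lam :=
    iIndepFun_infinitePi (P := fun _ : ℕ => geo) (X := fun _ ω => ω) (fun _ => measurable_id)
  have h1 : iIndep (fun n : ℕ => hdi_c n) lam := (iIndepFun_iff_iIndep _ _ _).1 h0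
  have h2 := indep_iSup_of_disjoint (fun i => hdi_c_le i) h1 hST
  exact (Indep_iff _ _ _).1 h2 A B hA hB

/-- codes of the extensions of `s` -/
private def hdi_U (s : List ℕ) : Set ℕ := {c | ∃ t : List ℕ, s <:+ t ∧ c = Encodable.encode t}

/-- codes of the proper extensions of `s` -/
private def hdi_T (s : List ℕ) : Set ℕ :=
  {c | ∃ t : List ℕ, s <:+ t ∧ s ≠ t ∧ c = Encodable.encode t}

private lemma hdi_U_cons_sub (i : ℕ) (s : List ℕ) : hdi_U (i :: s) ⊆ hdi_T s := by
  rintro c ⟨t, ht, rfl⟩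
  refine ⟨t, (List.suffix_cons i s).trans ht, ?_, rfl⟩
  rintro rfl
  have := ht.length_le
  simp at this

private lemma hdi_T_sub (s : List ℕ) : hdi_T s ⊆ hdi_U s := by
  rintro c ⟨t, ht, -, rfl⟩
  exact ⟨t, ht, rfl⟩

private lemma hdi_self (s : List ℕ) : Encodable.encode s ∈ hdi_U s := ⟨s, List.suffix_rfl, rfl⟩

private lemma hdi_disj {i j : ℕ} (h : i ≠ j) (s : List ℕ) :
    Disjoint (hdi_U (i :: s)) (hdi_U (j :: s)) := by
  rw [Set.disjoint_left]
  rintro c ⟨t, ht, rfl⟩ ⟨u, hu, hc⟩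
  have : t = u := Encodable.encode_injective hc
  subst this
  have h1 := List.suffix_of_suffix_length_le ht hu (by simp)
  have h2 := h1.eq_of_length (by simp)
  simp only [List.cons.injEq, and_true] at h2
  exact h h2

private lemma hdi_meas (a D : ℕ) (G : Set (List ℕ)) (m : ℕ) (s : List ℕ) :
    MeasurableSet[hdi_sg (hdi_T s)] (Ev a D G m s) := by
  induction m generalizing s with
  | zero =>
    show MeasurableSet[hdi_sg (hdi_T s)] {_y | s ∈ G}
    exact MeasurableSet.const _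
  | succ m ih =>
    have h1 : Ev a D G (m + 1) s = {_y | s ∈ G} ∪ ⋃ i ∈ {i | i < D},
        ({y : Baire | y (Encodable.encode (i :: s)) ∈ {k | a ≤ k}} ∩ Ev a D G m (i :: s)) := by
      ext y
      simp only [Ev, mem_setOf_eq, mem_union, mem_iUnion, mem_inter_iff, exists_prop]
    rw [h1]
    refine MeasurableSet.union (MeasurableSet.const _) ?_
    refine MeasurableSet.biUnion (Set.to_countable _) fun i _ => ?_
    refine MeasurableSet.inter (hdi_one (hdi_U_cons_sub i s (hdi_self _)) _) ?_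
    exact hdi_sg_mono ((hdi_T_sub _).trans (hdi_U_cons_sub i s)) _ (ih (i :: s))

/-- the connection through the child `i` -/
private def hdi_B (a D : ℕ) (G : Set (List ℕ)) (m : ℕ) (s : List ℕ) (i : ℕ) : Set Baire :=
  {y : Baire | y (Encodable.encode (i :: s)) ∈ {k | a ≤ k}} ∩ Ev a D G m (i :: s)

private lemma hdi_B_meas (a D : ℕ) (G : Set (List ℕ)) (m : ℕ) (s : List ℕ) (i : ℕ) :
    MeasurableSet[hdi_sg (hdi_U (i :: s))] (hdi_B a D G m s i) :=
  MeasurableSet.inter (hdi_one (hdi_self _) _) (hdi_sg_mono (hdi_T_sub _) _ (hdi_meas a D G m _))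

private lemma hdi_B_lam (a D : ℕ) (G : Set (List ℕ)) (m : ℕ) (s : List ℕ) (i : ℕ) :
    lam (hdi_B a D G m s i) = (2 : ℝ≥0∞)⁻¹ ^ a * lam (Ev a D G m (i :: s)) := by
  have hd : Disjoint ({Encodable.encode (i :: s)} : Set ℕ) (hdi_T (i :: s)) := by
    rw [Set.disjoint_singleton_left]
    rintro ⟨t, -, hne, hc⟩
    exact hne (Encodable.encode_injective hc)
  have h1 := hdi_indep hd (hdi_one (Set.mem_singleton _) {k | a ≤ k}) (hdi_meas a D G m (i :: s))
  rw [hdi_B, h1, lam_one, geo_tail]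

private lemma hdi_inter (a D : ℕ) (G : Set (List ℕ)) (m : ℕ) (s : List ℕ) (k : ℕ) :
    MeasurableSet[hdi_sg (⋃ i ∈ Set.Iio k, hdi_U (i :: s))]
        {y | ∀ i < k, y ∉ hdi_B a D G m s i} ∧
    lam {y | ∀ i < k, y ∉ hdi_B a D G m s i} =
      ∏ i ∈ Finset.range k, (1 - (2 : ℝ≥0∞)⁻¹ ^ a * lam (Ev a D G m (i :: s))) := by
  induction k with
  | zero =>
    simp
  | succ k ih =>
    have h1 : {y | ∀ i < k + 1, y ∉ hdi_B a D G m s i} =
        {y | ∀ i < k, y ∉ hdi_B a D G m s i} ∩ (hdi_B a D G m s k)ᶜ := by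
      ext y
      simp only [mem_setOf_eq, mem_inter_iff, mem_compl_iff]
      constructor
      · intro h
        exact ⟨fun i hi => h i (by omega), h k (by omega)⟩
      · rintro ⟨h, h'⟩ i hi
        rcases Nat.lt_succ_iff_lt_or_eq.1 hi with h2 | h2
        · exact h i h2
        · rw [h2]; exact h'
    have hm := (hdi_B_meas a D G m s k).compl
    refine ⟨?_, ?_⟩
    · rw [h1]
      refine MeasurableSet.inter ?_ ?_
      · refine hdi_sg_mono ?_ _ ih.1
        exact Set.biUnion_subset_biUnion_left fun i hi => lt_trans hi (Nat.lt_succ_self k)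
      · refine hdi_sg_mono ?_ _ hm
        exact Set.subset_biUnion_of_mem (u := fun i => hdi_U (i :: s))
          (show k ∈ Set.Iio (k + 1) from Nat.lt_succ_self k)
    · have hd : Disjoint (⋃ i ∈ Set.Iio k, hdi_U (i :: s)) (hdi_U (k :: s)) := by
        rw [Set.disjoint_iUnion₂_left]
        intro i hi
        exact hdi_disj (ne_of_lt hi) s
      rw [h1, hdi_indep hd ih.1 hm, ih.2, Finset.prod_range_succ,
        prob_compl_eq_one_sub (hdi_sg_le _ _ (hdi_B_meas a D G m s k)), hdi_B_lam]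

/-- PIECE HdInd (independence). -/
theorem Ev_compl (a D : ℕ) (G : Set (List ℕ)) (m : ℕ) (s : List ℕ) (hs : s ∉ G) :
    lam (Ev a D G (m + 1) s)ᶜ =
      ∏ i ∈ Finset.range D, (1 - (2 : ℝ≥0∞)⁻¹ ^ a * lam (Ev a D G m (i :: s))) := by
  rw [← (hdi_inter a D G m s D).2]
  congr 1
  ext y
  simp [Ev, hdi_B, hs]

end H99Cap
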