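import Pool.Agent.Lib.H99Cap.HdInd

/-!
(III) Hausdorff dimension, piece HdIneq: the survival probability dominates the truncated content.
-/

set_option autoImplicit false

namespace H99Cap

open MeasureTheory Set Topology Filter H97Proj
open scoped ENNReal NNReal

lemma hh_nonneg (D : ℕ) (p : ℝ) (hp0 : 0 < p) (G : Set (List ℕ)) (m : ℕ) :
    ∀ s, 0 ≤ hh D p G m s := by
  classical
  induction m with
  | zero =>
    intro s
    simp only [hh]
    split_ifs <;> norm_num
  | succ m ih =>
    intro s
    simp only [hh]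
    split_ifs
    · norm_num
    · exact le_min zero_le_one (mul_nonneg hp0.le (Finset.sum_nonneg fun i _ => ih _))

lemma Ev_mem (a D : ℕ) (G : Set (List ℕ)) (m : ℕ) (s : List ℕ) (hs : s ∈ G) :
    Ev a D G m s = univ := by
  cases m with
  | zero => simp [Ev, hs]
  | succ m => simp [Ev, hs]

lemma step_ineq {D : ℕ} {P p c : ℝ} (hP0 : 0 < P) (hP1 : P ≤ 1) (hp0 : 0 < p) (hp : p < P)
    (hc : c = 1 - p / P) (h q : ℕ → ℝ) (hh0 : ∀ i, 0 ≤ h i) (hq1 : ∀ i, q i ≤ 1)
    (hq : ∀ i, c * h i ≤ q i) :
    c * min 1 (p * ∑ i ∈ Finset.range D, h i) ≤ 1 - ∏ i ∈ Finset.range D, (1 - P * q i) := by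
  have hc0 : 0 < c := by
    rw [hc]
    have : p / P < 1 := (div_lt_one hP0).2 hp
    linarith
  set H : ℝ := ∑ i ∈ Finset.range D, h i with hH
  have hH0 : 0 ≤ H := Finset.sum_nonneg fun i _ => hh0 i
  have h1 : ∏ i ∈ Finset.range D, (1 - P * q i) ≤ Real.exp (-(P * c * H)) := by
    have h2 : ∏ i ∈ Finset.range D, (1 - P * q i) ≤
        ∏ i ∈ Finset.range D, Real.exp (-(P * c * h i)) := by
      apply Finset.prod_le_prod
      · intro i _
        nlinarith [hq1 i]
      · intro i _
        have h3 : P * (c * h i) ≤ P * q i := mul_le_mul_of_nonneg_left (hq i) hP0.le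
        have h4 := Real.add_one_le_exp (-(P * c * h i))
        linarith
    refine h2.trans (le_of_eq ?_)
    rw [← Real.exp_sum, hH, Finset.mul_sum, Finset.sum_neg_distrib]
  set w : ℝ := min 1 (p * H) with hw
  have hw0 : 0 ≤ w := le_min zero_le_one (mul_nonneg hp0.le hH0)
  have hw1 : w ≤ 1 := min_le_left _ _
  have hwH : w ≤ p * H := min_le_right _ _
  set v : ℝ := P * c * (w / p) with hv
  have hv0 : 0 ≤ v := by positivity
  have hvH : v ≤ P * c * H := by
    rw [hv]
    apply mul_le_mul_of_nonneg_left _ (by positivity)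
    rw [div_le_iff₀ hp0]
    linarith
  have h5 : Real.exp (-(P * c * H)) ≤ 1 / (1 + v) := by
    have h6 : Real.exp (-(P * c * H)) ≤ Real.exp (-v) := Real.exp_le_exp.2 (by linarith)
    have h7 : 1 + v ≤ Real.exp v := by
      have := Real.add_one_le_exp v
      linarith
    refine h6.trans ?_
    rw [Real.exp_neg, ← one_div]
    exact one_div_le_one_div_of_le (by linarith) h7
  have h8 : c * w * (1 + v) ≤ v := by
    have h9 : v = P * c * w / p := by rw [hv]; ring
    have h10 : 1 + v ≤ P / p := by
      have h11 : v ≤ P * c / p := by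
        rw [h9]
        apply div_le_div_of_nonneg_right _ hp0.le
        have : P * c * w ≤ P * c * 1 := mul_le_mul_of_nonneg_left hw1 (by positivity)
        linarith
      have h12 : P * c / p = P / p - 1 := by
        rw [hc]
        field_simp
      linarith
    calc c * w * (1 + v) ≤ c * w * (P / p) := mul_le_mul_of_nonneg_left h10 (by positivity)
      _ = v := by rw [h9]; ring
  have h13 : c * w ≤ v / (1 + v) := by
    rw [le_div_iff₀ (by linarith)]
    exact h8
  have h14 : v / (1 + v) = 1 - 1 / (1 + v) := by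
    field_simp
    ring
  linarith

/-- The survival probability dominates the truncated content. -/
theorem hh_le (a D : ℕ) (p : ℝ) (hp0 : 0 < p) (hp : p < (1 / 2 : ℝ) ^ a) :
    ∃ c : ℝ, 0 < c ∧ ∀ (G : Set (List ℕ)) (m : ℕ) (s : List ℕ),
      c * hh D p G m s ≤ (lam (Ev a D G m s)).toReal := by
  classical
  have hP0 : (0 : ℝ) < (1 / 2) ^ a := by positivity
  have hP1 : ((1 : ℝ) / 2) ^ a ≤ 1 := pow_le_one₀ (by norm_num) (by norm_num)
  have hc0 : 0 < 1 - p / (1 / 2 : ℝ) ^ a := by
    have : p / (1 / 2 : ℝ) ^ a < 1 := (div_lt_one hP0).2 hp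
    linarith
  have hc1 : 1 - p / (1 / 2 : ℝ) ^ a ≤ 1 := by
    have : 0 < p / (1 / 2 : ℝ) ^ a := by positivity
    linarith
  refine ⟨1 - p / (1 / 2 : ℝ) ^ a, hc0, fun G m => ?_⟩
  induction m with
  | zero =>
    intro s
    by_cases hs : s ∈ G
    · rw [Ev_mem a D G 0 s hs]
      simp only [hh, hs, if_true, measure_univ, ENNReal.toReal_one, mul_one]
      exact hc1
    · simp [hh, hs]
  | succ m ih =>
    intro s
    by_cases hs : s ∈ G
    · rw [Ev_mem a D G (m + 1) s hs]
      simp only [hh, hs, if_true, measure_univ, ENNReal.toReal_one, mul_one]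
      exact hc1
    · simp only [hh, hs, if_false]
      have hq1 : ∀ i, (lam (Ev a D G m (i :: s))).toReal ≤ 1 := by
        intro i
        have := (ENNReal.toReal_le_toReal (measure_ne_top _ _) ENNReal.one_ne_top).2
          (prob_le_one (μ := lam) (s := Ev a D G m (i :: s)))
        simpa using this
      refine (step_ineq hP0 hP1 hp0 hp rfl (fun i => hh D p G m (i :: s))
        (fun i => (lam (Ev a D G m (i :: s))).toReal) (fun i => hh_nonneg D p hp0 G m _) hq1
        (fun i => ih _)).trans ?_
      have h1 := Ev_compl a D G m s hs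
      have h2 : (lam (Ev a D G (m + 1) s)ᶜ).toReal =
          ∏ i ∈ Finset.range D, (1 - (1 / 2 : ℝ) ^ a * (lam (Ev a D G m (i :: s))).toReal) := by
        rw [h1, ENNReal.toReal_prod]
        refine Finset.prod_congr rfl fun i _ => ?_
        rw [ENNReal.toReal_sub_of_le _ ENNReal.one_ne_top, ENNReal.toReal_mul]
        · simp
        · refine mul_le_one' ?_ prob_le_one
          exact pow_le_one₀ zero_le (by norm_num)
      have h3 : (1 : ℝ) ≤ (lam (Ev a D G (m + 1) s)).toReal +
          (lam (Ev a D G (m + 1) s)ᶜ).toReal := by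
        rw [← ENNReal.toReal_add (measure_ne_top _ _) (measure_ne_top _ _)]
        have h4 : (1 : ℝ≥0∞) ≤ lam (Ev a D G (m + 1) s) + lam (Ev a D G (m + 1) s)ᶜ := by
          have h5 := measure_union_le (μ := lam) (Ev a D G (m + 1) s) (Ev a D G (m + 1) s)ᶜ
          rwa [union_compl_self, measure_univ] at h5
        have h6 := (ENNReal.toReal_le_toReal ENNReal.one_ne_top
          (ENNReal.add_ne_top.2 ⟨measure_ne_top _ _, measure_ne_top _ _⟩)).2 h4
        simpa using h6
      rw [← h2]
      linarith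

end H99Cap
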