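import Pool.Agent.Lib.H99Cap.HdDefs

/-!
(III) Hausdorff dimension, piece HdLink: a connection is a chain of surviving nodes.
-/

set_option autoImplicit false

namespace H99Cap

open MeasureTheory Set Topology Filter H97Proj
open scoped ENNReal NNReal

theorem Ev_sub (a D : ℕ) (G : Set (List ℕ)) (m : ℕ) :
    Ev a D G m [] ⊆ {y | ∃ s ∈ G, (∀ i ∈ s, i < D) ∧ conn a y s} := by
  intro y hy
  have key : ∀ m s, (∀ i ∈ s, i < D) → conn a y s → y ∈ Ev a D G m s →
      ∃ s ∈ G, (∀ i ∈ s, i < D) ∧ conn a y s := by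
    intro m
    induction m with
    | zero =>
      intro s h1 h2 h3
      exact ⟨s, h3, h1, h2⟩
    | succ m ih =>
      intro s h1 h2 h3
      rcases h3 with h3 | ⟨i, hi, h3, h4⟩
      · exact ⟨s, h3, h1, h2⟩
      · refine ih (i :: s) ?_ ⟨h3, h2⟩ h4
        intro j hj
        rcases List.mem_cons.1 hj with rfl | hj
        · exact hi
        · exact h1 j hj
  exact key m [] (by simp) trivial hy
end H99Cap
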