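import Pool.Agent.Lib.H99Cap.HdDefs
import Pool.Agent.Lib.H99Cap.HdConn
import Pool.Agent.Lib.H99Cap.HdGeom

/-!
Percolation and null sets of the Hausdorff measure: the first moment.
-/

set_option autoImplicit false

namespace H99Cap

open MeasureTheory Set Topology Filter H97Proj
open scoped ENNReal NNReal

/-- The level of a set of diameter `δ`. -/
lemma exists_level (a D : ℕ) (hD : 1 < D) (d : ℝ) (hd : 0 < d)
    (hda : (D : ℝ) ^ (-d) = (1 / 2 : ℝ) ^ a) (δ η : ℝ≥0∞) (hδ : δ ≤ 1) (hη : η ≠ 0) :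
    ∃ m : ℕ, δ ≤ ENNReal.ofReal (((D : ℝ) ^ m)⁻¹) ∧
      ((2 : ℝ≥0∞)⁻¹ ^ a) ^ m ≤ 2 ^ a * δ ^ d + η := by
  have hD0 : (0 : ℝ) < D := by exact_mod_cast (by omega : 0 < D)
  have hD1 : (1 : ℝ) < D := by exact_mod_cast hD
  have hP : (1 / 2 : ℝ) ^ a < 1 := by
    rw [← hda]
    exact Real.rpow_lt_one_of_one_lt_of_neg hD1 (by linarith)
  have hPe : (2 : ℝ≥0∞)⁻¹ ^ a < 1 := by
    have h1 : (2 : ℝ≥0∞)⁻¹ ^ a = ENNReal.ofReal ((1 / 2 : ℝ) ^ a) := by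
      rw [ENNReal.ofReal_pow (by norm_num), one_div, ENNReal.ofReal_inv_of_pos (by norm_num)]
      simp
    rw [h1, ← ENNReal.ofReal_one]
    exact (ENNReal.ofReal_lt_ofReal_iff one_pos).2 hP
  rcases eq_or_ne δ 0 with rfl | h0
  · have h1 := ENNReal.tendsto_pow_atTop_nhds_zero_of_lt_one hPe
    obtain ⟨m, hm⟩ := (h1.eventually (ge_mem_nhds (pos_iff_ne_zero.2 hη))).exists
    exact ⟨m, zero_le, hm.trans le_add_self⟩
  · have hδt : δ ≠ ∞ := ne_top_of_le_ne_top ENNReal.one_ne_top hδ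
    have hx : 0 < δ.toReal := ENNReal.toReal_pos h0 hδt
    have hx1 : δ.toReal ≤ 1 := by
      have := ENNReal.toReal_mono ENNReal.one_ne_top hδ
      simpa using this
    obtain ⟨m, hm1, hm2⟩ := exists_nat_pow_near_of_lt_one hx hx1 (inv_pos.2 hD0)
      (inv_lt_one_of_one_lt₀ hD1)
    refine ⟨m, ?_, ?_⟩
    · rw [← ENNReal.ofReal_toReal hδt, ← inv_pow]
      exact ENNReal.ofReal_le_ofReal hm2
    · refine le_trans ?_ le_self_add
      have h2 : (((D : ℝ)⁻¹) ^ (m + 1)) ^ d ≤ δ.toReal ^ d :=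
        Real.rpow_le_rpow (by positivity) hm1.le hd.le
      have h3 : (((D : ℝ)⁻¹) ^ (m + 1)) ^ d = ((1 / 2 : ℝ) ^ a) ^ (m + 1) := by
        rw [← hda, ← Real.rpow_natCast, ← Real.rpow_natCast, ← Real.rpow_mul (by positivity),
          Real.inv_rpow hD0.le, ← Real.rpow_neg hD0.le, ← Real.rpow_mul hD0.le]
        congr 1
        ring
      have h4 : ((1 / 2 : ℝ) ^ a) ^ m ≤ 2 ^ a * δ.toReal ^ d := by
        have h5 : (2 : ℝ) ^ a * (1 / 2 : ℝ) ^ a = 1 := by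
          rw [← mul_pow]; norm_num
        calc ((1 / 2 : ℝ) ^ a) ^ m = (2 ^ a * (1 / 2 : ℝ) ^ a) * ((1 / 2 : ℝ) ^ a) ^ m := by
              rw [h5, one_mul]
          _ = 2 ^ a * ((1 / 2 : ℝ) ^ a) ^ (m + 1) := by rw [pow_succ _ m]; ring
          _ ≤ 2 ^ a * δ.toReal ^ d := by
              apply mul_le_mul_of_nonneg_left _ (by positivity)
              rw [← h3]; exact h2
      have h6 : ((2 : ℝ≥0∞)⁻¹ ^ a) ^ m = ENNReal.ofReal (((1 / 2 : ℝ) ^ a) ^ m) := by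
        rw [ENNReal.ofReal_pow (by positivity), ENNReal.ofReal_pow (by norm_num), one_div,
          ENNReal.ofReal_inv_of_pos (by norm_num)]
        simp
      have h7 : (2 : ℝ≥0∞) ^ a * δ ^ d = ENNReal.ofReal (2 ^ a * δ.toReal ^ d) := by
        rw [ENNReal.ofReal_mul (by positivity), ENNReal.ofReal_pow (by norm_num),
          ← ENNReal.ofReal_rpow_of_pos hx, ENNReal.ofReal_toReal hδt]
        simp
      rw [h6, h7]
      exact ENNReal.ofReal_le_ofReal h4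

theorem null_of_hausdorff (a D : ℕ) [NeZero D] (hD : 1 < D) (d : ℝ) (hd : 0 < d)
    (hda : (D : ℝ) ^ (-d) = (1 / 2 : ℝ) ^ a) (Q : Set ℝ)
    (hQ : Measure.hausdorffMeasure d Q = 0) :
    lam {y | ∃ x ∈ Dig D, vv D x ∈ Q ∧ ∀ m, conn a y (PiNat.res x m)} = 0 := by
  classical
  have key : ∀ ε : ℝ≥0∞, ε ≠ 0 →
      lam {y | ∃ x ∈ Dig D, vv D x ∈ Q ∧ ∀ m, conn a y (PiNat.res x m)} ≤
        4 * (2 ^ a + 2) * ε := by
    intro ε hε
    -- a cover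
    obtain ⟨t, ht1, ht2, ht3⟩ : ∃ t : ℕ → Set ℝ, Q ⊆ ⋃ n, t n ∧ (∀ n, Metric.ediam (t n) ≤ 1) ∧
        ∑' n, ⨆ _ : (t n).Nonempty, Metric.ediam (t n) ^ d ≤ ε := by
      rw [Measure.hausdorffMeasure_apply] at hQ
      have h1 := (ENNReal.iSup_eq_zero.1 hQ) 1
      have h2 := (ENNReal.iSup_eq_zero.1 h1) one_pos
      have h3 := lt_of_eq_of_lt h2 (pos_iff_ne_zero.2 hε)
      obtain ⟨t, h4⟩ := iInf_lt_iff.1 h3
      obtain ⟨h5, h6⟩ := iInf_lt_iff.1 h4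
      obtain ⟨h7, h8⟩ := iInf_lt_iff.1 h6
      exact ⟨t, h5, h7, h8.le⟩
    -- the nodes
    have h1 : ∀ n, ∃ F : Finset (List ℕ),
        (∑ s ∈ F, lam {y | conn a y s} ≤
          4 * (2 ^ a * (⨆ _ : (t n).Nonempty, Metric.ediam (t n) ^ d) + ε * 2⁻¹ ^ n)) ∧
        ∀ x ∈ Dig D, vv D x ∈ t n → ∃ m, PiNat.res x m ∈ F := by
      intro n
      by_cases hne : (t n).Nonempty
      · obtain ⟨m, hm1, hm2⟩ := exists_level a D hD d hd hda (Metric.ediam (t n)) (ε * 2⁻¹ ^ n)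
          (ht2 n) (mul_ne_zero hε (by simp))
        obtain ⟨F, hF1, hF2, hF3⟩ := few_nodes D hD m (t n) hm1
        refine ⟨F, ?_, fun x hx hxt => ⟨m, hF3 x hx hxt⟩⟩
        rw [iSup_pos hne]
        calc ∑ s ∈ F, lam {y | conn a y s} = ∑ s ∈ F, ((2 : ℝ≥0∞)⁻¹ ^ a) ^ m := by
              refine Finset.sum_congr rfl fun s hs => ?_
              rw [lam_conn, hF2 s hs]
          _ = F.card * ((2 : ℝ≥0∞)⁻¹ ^ a) ^ m := by rw [Finset.sum_const, nsmul_eq_mul]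
          _ ≤ 4 * (2 ^ a * Metric.ediam (t n) ^ d + ε * 2⁻¹ ^ n) := by
              gcongr
              exact_mod_cast hF1
      · refine ⟨∅, by simp, fun x _ hxt => absurd ⟨_, hxt⟩ hne⟩
    choose F hF1 hF2 using h1
    have h2 : {y | ∃ x ∈ Dig D, vv D x ∈ Q ∧ ∀ m, conn a y (PiNat.res x m)} ⊆
        ⋃ n, ⋃ s ∈ F n, {y | conn a y s} := by
      rintro y ⟨x, hx, hxQ, hy⟩
      obtain ⟨n, hn⟩ := mem_iUnion.1 (ht1 hxQ)
      obtain ⟨m, hm⟩ := hF2 n x hx hn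
      exact mem_iUnion.2 ⟨n, mem_iUnion₂.2 ⟨_, hm, hy m⟩⟩
    calc lam {y | ∃ x ∈ Dig D, vv D x ∈ Q ∧ ∀ m, conn a y (PiNat.res x m)}
        ≤ lam (⋃ n, ⋃ s ∈ F n, {y | conn a y s}) := measure_mono h2
      _ ≤ ∑' n, lam (⋃ s ∈ F n, {y | conn a y s}) := measure_iUnion_le _
      _ ≤ ∑' n, ∑ s ∈ F n, lam {y | conn a y s} :=
          ENNReal.tsum_le_tsum fun n => measure_biUnion_finset_le _ _
      _ ≤ ∑' n, 4 * (2 ^ a * (⨆ _ : (t n).Nonempty, Metric.ediam (t n) ^ d) + ε * 2⁻¹ ^ n) :=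
          ENNReal.tsum_le_tsum hF1
      _ = 4 * (2 ^ a * (∑' n, ⨆ _ : (t n).Nonempty, Metric.ediam (t n) ^ d) +
            ε * ∑' n, (2⁻¹ : ℝ≥0∞) ^ n) := by
          rw [ENNReal.tsum_mul_left, ENNReal.tsum_add, ENNReal.tsum_mul_left,
            ENNReal.tsum_mul_left]
      _ ≤ 4 * (2 ^ a * ε + ε * 2) := by
          gcongr
          rw [ENNReal.tsum_geometric, ENNReal.one_sub_inv_two, inv_inv]
      _ = 4 * (2 ^ a + 2) * ε := by ring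
  have hC0 : (4 * (2 ^ a + 2) : ℝ≥0∞) ≠ 0 := by positivity
  have hCt : (4 * (2 ^ a + 2) : ℝ≥0∞) ≠ ∞ := by
    refine ENNReal.mul_ne_top (by simp) (ENNReal.add_ne_top.2 ⟨?_, by simp⟩)
    exact ENNReal.pow_ne_top (by simp)
  refine le_antisymm (ENNReal.le_of_forall_pos_le_add fun ε hε _ => ?_) zero_le
  have h1 := key (ε / (4 * (2 ^ a + 2)))
    (ENNReal.div_ne_zero.2 ⟨by exact_mod_cast hε.ne', hCt⟩)
  rw [ENNReal.mul_div_cancel hC0 hCt] at h1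
  rw [zero_add]
  exact h1

end H99Cap
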