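import Pool.Agent.Lib.H99Cap.Cap
import Pool.Agent.Lib.H99Cap.HdDefs
import Pool.Agent.Lib.H99Cap.HdIneq
import Pool.Agent.Lib.H99Cap.HdCover
import Pool.Agent.Lib.H99Cap.HdLink
import Pool.Agent.Lib.H99Cap.HdComp
import Pool.Agent.Lib.H99Cap.HdHaus
import Pool.Agent.Lib.H99Cap.HdNull

/-!
Hausdorff dimension: assembly.
-/

set_option autoImplicit false

namespace H99Cap

open MeasureTheory Set Topology Filter H97Proj
open scoped ENNReal NNReal

theorem null_cover (a D : ℕ) (A : Set Baire) (hA : A ⊆ Dig D)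
    (h0 : lam {y | ∃ x ∈ A, ∀ m, conn a y (PiNat.res x m)} = 0) (p : ℝ) (hp0 : 0 < p)
    (hp : p < (1 / 2 : ℝ) ^ a) (ε : ℝ) (hε : 0 < ε) :
    ∃ Q : Set (List ℕ), (∑' s : Q, ENNReal.ofReal (p ^ s.1.length)) ≤ ENNReal.ofReal ε ∧
      ∀ x ∈ A, ∃ m, PiNat.res x m ∈ Q := by
  obtain ⟨c, hc, hh⟩ := hh_le a D p hp0 hp
  set η : ℝ := min ε (1 / 2) with hη
  have hη0 : 0 < η := lt_min hε (by norm_num)
  have hδ : ENNReal.ofReal (c * η) ≠ 0 := by
    rw [Ne, ENNReal.ofReal_eq_zero, not_le]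
    positivity
  obtain ⟨G, hG1, hG2⟩ := exists_G a D A h0 _ hδ
  have h1 : ∀ m, H99Cap.hh D p G m [] ≤ η := by
    intro m
    have h2 := hh G m []
    have h3 : (lam (Ev a D G m [])).toReal ≤ c * η := by
      have h4 := (measure_mono (Ev_sub a D G m)).trans hG2
      exact ENNReal.toReal_le_of_le_ofReal (by positivity) h4
    exact le_of_mul_le_mul_left (h2.trans h3) hc
  obtain ⟨Q, hQ1, hQ2⟩ := exists_cover D p hp0 G η
    (lt_of_le_of_lt (min_le_right _ _) (by norm_num)) h1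
  refine ⟨Q, hQ1.trans (ENNReal.ofReal_le_ofReal (min_le_left _ _)), fun x hx => ?_⟩
  exact hQ2 x (hA hx) (hG1 x hx)

lemma isClopen_conn (a : ℕ) (s : List ℕ) : IsClopen {y | conn a y s} := by
  induction s with
  | nil => simp only [conn]; exact isClopen_univ
  | cons i s ih =>
    have h1 : {y : Baire | conn a y (i :: s)} =
        {y | a ≤ y (Encodable.encode (i :: s))} ∩ {y | conn a y s} := by
      ext y; rfl
    rw [h1]
    refine IsClopen.inter ?_ ih
    exact (isClopen_discrete {k | a ≤ k}).preimage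
      (by fun_prop : Continuous fun y : Baire => y (Encodable.encode (i :: s)))

lemma isOpen_res (m : ℕ) : ∀ s : List ℕ, IsOpen {x : Baire | PiNat.res x m = s} := by
  induction m with
  | zero =>
    intro s
    by_cases h : ([] : List ℕ) = s
    · have : {x : Baire | PiNat.res x 0 = s} = univ := by
        ext x; simp [h]
      rw [this]; exact isOpen_univ
    · have : {x : Baire | PiNat.res x 0 = s} = ∅ := by
        ext x; simp [h]
      rw [this]; exact isOpen_empty
  | succ m ih =>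
    intro s
    rcases s with _ | ⟨i, s⟩
    · have : {x : Baire | PiNat.res x (m + 1) = []} = ∅ := by
        ext x; simp [PiNat.res_succ]
      rw [this]; exact isOpen_empty
    · have : {x : Baire | PiNat.res x (m + 1) = i :: s} =
          {x | x m = i} ∩ {x | PiNat.res x m = s} := by
        ext x; simp [PiNat.res_succ]
      rw [this]
      refine IsOpen.inter ?_ (ih s)
      exact (isOpen_discrete {i}).preimage (by fun_prop : Continuous fun x : Baire => x m)

lemma isPi_conn (n a : ℕ) :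
    IsPi n (Baire × Baire) {p | ∀ m, conn a p.2 (PiNat.res p.1 m)} := by
  change IsSigma n (Baire × Baire) {p | ∀ m, conn a p.2 (PiNat.res p.1 m)}ᶜ
  refine isSigma_mono (Nat.zero_le n) ?_
  change IsOpen _
  have h1 : {p : Baire × Baire | ∀ m, conn a p.2 (PiNat.res p.1 m)}ᶜ =
      ⋃ m, ⋃ s, ((Prod.fst ⁻¹' {x : Baire | PiNat.res x m = s}) ∩
        (Prod.snd ⁻¹' {y : Baire | conn a y s}ᶜ)) := by
    ext p
    simp only [mem_compl_iff, mem_setOf_eq, not_forall, mem_iUnion, mem_inter_iff, mem_preimage]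
    constructor
    · rintro ⟨m, hm⟩
      exact ⟨m, _, rfl, hm⟩
    · rintro ⟨m, s, rfl, hm⟩
      exact ⟨m, hm⟩
  rw [h1]
  refine isOpen_iUnion fun m => isOpen_iUnion fun s => IsOpen.inter ?_ ?_
  · exact (isOpen_res m s).preimage continuous_fst
  · exact (isClopen_conn a s).compl.isOpen.preimage continuous_snd

lemma continuous_vv (D : ℕ) [NeZero D] : Continuous (vv D) := by
  unfold vv
  refine Real.continuous_ofDigits.comp (continuous_pi fun m => ?_)
  exact (continuous_of_discreteTopology (f := fun k : ℕ => Fin.ofNat D k)).comp (continuous_apply m)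

lemma isClosed_Dig (D : ℕ) : IsClosed (Dig D) := by
  have : Dig D = ⋂ m, {x : Baire | x m < D} := by
    ext x; simp [Dig]
  rw [this]
  refine isClosed_iInter fun m => ?_
  exact (isClosed_discrete {k | k < D}).preimage (by fun_prop : Continuous fun x : Baire => x m)

lemma exists_digits (D : ℕ) [NeZero D] (hD : 1 < D) (t : ℝ) (ht : t ∈ Ico (0 : ℝ) 1) :
    ∃ x ∈ Dig D, vv D x = t := by
  refine ⟨fun m => (Real.digits t D m : ℕ), fun m => (Real.digits t D m).2, ?_⟩
  unfold vv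
  have h1 : (fun m => Fin.ofNat D (Real.digits t D m : ℕ)) = Real.digits t D := by
    funext m
    apply Fin.ext
    simp [Fin.ofNat, Nat.mod_eq_of_lt (Real.digits t D m).2]
  rw [h1]
  exact Real.ofDigits_digits hD ht

theorem dimension {n k : ℕ} (hk : 1 ≤ k)
    (hLM : ∀ A : Set Baire, IsSigma k Baire A → NullMeasurableSet A lam)
    (hU : ∀ R : Set (Baire × Baire), IsPi n (Baire × Baire) R →
      ∃ S ⊆ R, IsSigma k (Baire × Baire) S ∧
        ∀ x, (∃ y, (x, y) ∈ R) → ∃! y, (x, y) ∈ S)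
    (A : Set ℝ) (hA : IsSigma (n + 1) ℝ A) (r : ℝ≥0∞) (hr : r < dimH A) :
    ∃ P ⊆ A, IsCompact P ∧ r < dimH P := by
  obtain ⟨q, hq0, hrq, hqA⟩ := ENNReal.lt_iff_exists_rat_btwn.1 hr
  obtain ⟨d', hqd, hdA⟩ := ENNReal.lt_iff_exists_nnreal_btwn.1 hqA
  have hqpos : 0 < q := by
    rcases hq0.lt_or_eq with h | h
    · exact h
    · exfalso
      rw [← h] at hrq
      simp at hrq
  set b : ℕ := q.den with hb
  set a : ℕ := q.num.toNat with ha
  have hb1 : 1 ≤ b := q.pos
  set D : ℕ := 2 ^ b with hDdef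
  have hD : 1 < D := Nat.one_lt_two_pow (by omega)
  have : NeZero D := ⟨by omega⟩
  have hqreal : (q : ℝ) * b = a := by
    have h1 : ((a : ℤ) : ℝ) = (q.num : ℝ) := by
      rw [ha, Int.toNat_of_nonneg (Rat.num_nonneg.2 hq0)]
    have h2 : (q : ℝ) = (q.num : ℝ) / (q.den : ℝ) := by
      exact_mod_cast (Rat.num_div_den q).symm
    have h3 : (q.den : ℝ) ≠ 0 := by exact_mod_cast q.den_nz
    rw [h2, hb, div_mul_cancel₀ _ h3, ← h1]
    norm_num
  have hDq : (D : ℝ) ^ (-(q : ℝ)) = (1 / 2 : ℝ) ^ a := by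
    rw [hDdef]
    push_cast
    rw [← Real.rpow_natCast (2 : ℝ) b, ← Real.rpow_mul (by norm_num : (0 : ℝ) ≤ 2)]
    have h1 : (b : ℝ) * (-(q : ℝ)) = -(a : ℝ) := by rw [← hqreal]; ring
    rw [h1, Real.rpow_neg (by norm_num : (0 : ℝ) ≤ 2), Real.rpow_natCast, one_div, inv_pow]
  have hqd' : (q : ℝ) < d' := by
    have h1 : Real.toNNReal (q : ℝ) < d' := by exact_mod_cast hqd
    exact (Real.toNNReal_lt_iff_lt_coe (by exact_mod_cast hq0)).1 h1
  have hp : (D : ℝ) ^ (-(d' : ℝ)) < (1 / 2 : ℝ) ^ a := by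
    rw [← hDq]
    exact Real.rpow_lt_rpow_of_exponent_lt (by exact_mod_cast hD) (by linarith)
  have hp0 : 0 < (D : ℝ) ^ (-(d' : ℝ)) := Real.rpow_pos_of_pos (by positivity) _
  have hinf : Measure.hausdorffMeasure (d' : ℝ) A = ∞ := hausdorffMeasure_of_lt_dimH hdA
  obtain ⟨z, hz⟩ : ∃ z : ℤ, Measure.hausdorffMeasure (d' : ℝ) (A ∩ Ico (z : ℝ) (z + 1)) ≠ 0 := by
    by_contra hcon
    push Not at hcon
    have h1 : A ⊆ ⋃ z : ℤ, (A ∩ Ico (z : ℝ) (z + 1)) := by
      intro t ht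
      exact mem_iUnion.2 ⟨⌊t⌋, ht, Int.floor_le t, Int.lt_floor_add_one t⟩
    have h2 : Measure.hausdorffMeasure (d' : ℝ) A = 0 :=
      measure_mono_null h1 (measure_iUnion_null hcon)
    rw [hinf] at h2
    exact absurd h2 (by simp)
  let f : Baire → ℝ := fun x => vv D x + z
  have hf : Continuous f := (continuous_vv D).add continuous_const
  let Az : Set Baire := Dig D ∩ f ⁻¹' A
  have hAz : IsSigma (n + 1) Baire Az := by
    have h1 : IsSigma 0 Baire (Dig D)ᶜ := (isClosed_Dig D).isOpen_compl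
    have h2 := h1.compl_succ
    rw [compl_compl] at h2
    exact (isSigma_mono (by omega) h2).inter (hA.preimage hf)
  obtain ⟨P, hPc, hPA, hP0⟩ := capac hk hLM hU _ (isPi_conn n a) Az hAz
  have hnot : lam {y | ∃ x ∈ Az, ∀ m, conn a y (PiNat.res x m)} ≠ 0 := by
    intro h0
    have h1 := hausdorff_zero D hD Az inter_subset_left (d' : ℝ)
      (lt_trans (by exact_mod_cast hqpos) hqd')
      (fun ε hε => null_cover a D Az inter_subset_left h0 _ hp0 hp ε hε)
    apply hz
    have h2 : A ∩ Ico (z : ℝ) (z + 1) ⊆ (fun t : ℝ => t + z) '' (vv D '' Az) := by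
      rintro t ⟨ht, ht1, ht2⟩
      obtain ⟨x, hx, hxt⟩ := exists_digits D hD (t - z) ⟨by linarith, by linarith⟩
      refine ⟨vv D x, ⟨x, ⟨hx, ?_⟩, rfl⟩, ?_⟩
      · change vv D x + z ∈ A
        rw [hxt, sub_add_cancel]; exact ht
      · change vv D x + z = t
        rw [hxt, sub_add_cancel]
    refine measure_mono_null h2 ?_
    have h3 := (IsometryEquiv.addRight (z : ℝ)).hausdorffMeasure_image (d' : ℝ) (vv D '' Az)
    rw [h1] at h3
    exact h3
  obtain ⟨i, hi⟩ : ∃ i, lam {y | ∃ x ∈ P i, ∀ m, conn a y (PiNat.res x m)} ≠ 0 := by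
    by_contra hcon
    push Not at hcon
    apply hnot
    have h1 : lam (⋃ i, {y | ∃ x ∈ P i, (x, y) ∈
        {p : Baire × Baire | ∀ m, conn a p.2 (PiNat.res p.1 m)}}) = 0 :=
      measure_iUnion_null hcon
    refine measure_mono_null ?_ (measure_union_null hP0 h1)
    intro y hy
    by_cases h : y ∈ ⋃ i, {y | ∃ x ∈ P i, (x, y) ∈
        {p : Baire × Baire | ∀ m, conn a p.2 (PiNat.res p.1 m)}}
    · exact Or.inr h
    · exact Or.inl ⟨hy, h⟩
  refine ⟨f '' P i, ?_, (hPc i).image hf, ?_⟩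
  · rintro _ ⟨x, hx, rfl⟩
    exact (hPA i hx).2
  · refine lt_of_lt_of_le hrq ?_
    by_contra hlt
    rw [not_le] at hlt
    have h1 := hausdorffMeasure_of_dimH_lt hlt
    have h2 : ((Real.toNNReal (q : ℝ) : ℝ≥0) : ℝ) = q := Real.coe_toNNReal _ (by exact_mod_cast hq0)
    rw [h2] at h1
    apply hi
    have h3 : Measure.hausdorffMeasure (q : ℝ) (vv D '' P i) = 0 := by
      have h4 := (IsometryEquiv.addRight (z : ℝ)).hausdorffMeasure_image (q : ℝ) (vv D '' P i)
      rw [← h4, image_image]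
      exact h1
    refine measure_mono_null ?_ (null_of_hausdorff a D hD (q : ℝ) (by exact_mod_cast hqpos) hDq _ h3)
    rintro y ⟨x, hx, hxy⟩
    exact ⟨x, (hPA i hx).1, ⟨x, hx, rfl⟩, hxy⟩

end H99Cap
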