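import Pool.Agent.Lib.H97Proj.Filt

/-!
(II) Localization, piece L5: Baire category in a closed set (from Lib/H97Proj/Filt).
-/

set_option autoImplicit false

namespace H99Cap

open MeasureTheory Set Topology Filter H97Proj
open scoped ENNReal

/-- Baire category in the closed set `K`. -/
theorem baire_piece (K : Set Baire) (hK : IsClosed K) (hne : K.Nonempty) (C : ℕ → Set Baire)
    (hC : ∀ m, IsClosed (C m)) (hcov : K ⊆ ⋃ m, C m) :
    ∃ (m : ℕ) (V : Set Baire), IsOpen V ∧ (K ∩ V).Nonempty ∧ K ∩ V ⊆ C m := by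
  obtain ⟨m, s, h1, h2⟩ := exists_cyl_subset hK hne C hC hcov
  exact ⟨m, cyl s, isOpen_cyl s, h1, h2⟩

end H99Cap
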