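import Pool.Agent.Lib.H99Cap.LocDefs

/-!
Localization: the bound from independence. A set `E` of positive measure has only few coordinates
`Nat.pair n i` on which all its points are below `t n`.
-/

set_option autoImplicit false

namespace H99Cap

open MeasureTheory Set Topology Filter H97Proj
open scoped ENNReal

lemma one_sub_inv_pow (m : ℕ) :
    (1 : ℝ≥0∞) - 2⁻¹ ^ m = ENNReal.ofReal (1 - (2⁻¹ : ℝ) ^ m) := by
  rw [ENNReal.ofReal_sub _ (by positivity), ENNReal.ofReal_one,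
    ENNReal.ofReal_pow (by norm_num), ENNReal.ofReal_inv_of_pos (by norm_num)]
  simp

lemma inv_pow_eq (m : ℕ) : (2 : ℝ≥0∞)⁻¹ ^ m = ENNReal.ofReal ((2⁻¹ : ℝ) ^ m) := by
  rw [ENNReal.ofReal_pow (by norm_num), ENNReal.ofReal_inv_of_pos (by norm_num)]
  simp

lemma one_sub_nonneg (m : ℕ) : (0 : ℝ) ≤ 1 - (2⁻¹ : ℝ) ^ m := by
  have : (2⁻¹ : ℝ) ^ m ≤ 1 := pow_le_one₀ (by norm_num) (by norm_num)
  linarith

/-- The sums over finite sets of coordinates are bounded. -/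
lemma sum_bound (t : ℕ → ℕ) (E : Set Baire) (hE : lam E ≠ 0) :
    ∃ C : ℝ, ∀ S : Finset ℕ, (∀ c ∈ S, ∀ y ∈ E, y c < t c.unpair.1) →
      ∑ c ∈ S, (2⁻¹ : ℝ) ^ t c.unpair.1 ≤ C := by
  obtain ⟨δ, hδ0, hδ⟩ : ∃ δ : ℝ, 0 < δ ∧ ENNReal.ofReal δ ≤ lam E :=
    ⟨(lam E).toReal, ENNReal.toReal_pos hE (measure_ne_top _ _),
      by rw [ENNReal.ofReal_toReal (measure_ne_top _ _)]⟩
  refine ⟨- Real.log δ, fun S hS => ?_⟩
  have h1 : lam E ≤ lam {ω | ∀ c ∈ S, ω c ∈ {k | k < t c.unpair.1}} :=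
    measure_mono fun ω hω c hc => hS c hc ω hω
  rw [lam_pi S (fun c => {k | k < t c.unpair.1})] at h1
  have h2 : ∏ c ∈ S, geo {k | k < t c.unpair.1} =
      ENNReal.ofReal (∏ c ∈ S, (1 - (2⁻¹ : ℝ) ^ t c.unpair.1)) := by
    rw [ENNReal.ofReal_prod_of_nonneg fun c _ => one_sub_nonneg _]
    refine Finset.prod_congr rfl fun c _ => ?_
    rw [geo_init, one_sub_inv_pow]
  rw [h2] at h1
  have h3 : δ ≤ ∏ c ∈ S, (1 - (2⁻¹ : ℝ) ^ t c.unpair.1) := by
    have h4 := hδ.trans h1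
    rwa [ENNReal.ofReal_le_ofReal_iff (Finset.prod_nonneg fun c _ => one_sub_nonneg _)] at h4
  have h5 : ∏ c ∈ S, (1 - (2⁻¹ : ℝ) ^ t c.unpair.1) ≤
      Real.exp (- ∑ c ∈ S, (2⁻¹ : ℝ) ^ t c.unpair.1) := by
    rw [← Finset.sum_neg_distrib, Real.exp_sum]
    refine Finset.prod_le_prod (fun c _ => one_sub_nonneg _) fun c _ => ?_
    have := Real.add_one_le_exp (- (2⁻¹ : ℝ) ^ t c.unpair.1)
    linarith
  have h6 : Real.log δ ≤ - ∑ c ∈ S, (2⁻¹ : ℝ) ^ t c.unpair.1 := by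
    rw [Real.log_le_iff_le_exp hδ0]
    exact h3.trans h5
  linarith

/-- PIECE L2, independence. -/
theorem exists_slalom (t : ℕ → ℕ) (E : Set Baire) (hE : lam E ≠ 0) :
    ∃ φ : ℕ → Finset ℕ, (∑' n, ((φ n).card : ℝ≥0∞) * (2 : ℝ≥0∞)⁻¹ ^ t n) ≠ ∞ ∧
      ∀ n i, (∀ y ∈ E, y (Nat.pair n i) < t n) → i ∈ φ n := by
  classical
  obtain ⟨C, hC⟩ := sum_bound t E hE
  have hinj : ∀ n, Function.Injective (Nat.pair n) := fun n a b h => (Nat.pair_eq_pair.1 h).2
  have hone : ∀ n (s : Finset ℕ), ∑ c ∈ s.image (Nat.pair n), (2⁻¹ : ℝ) ^ t c.unpair.1 =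
      s.card * (2⁻¹ : ℝ) ^ t n := by
    intro n s
    rw [Finset.sum_image fun a _ b _ h => hinj n h]
    simp only [Nat.unpair_pair]
    rw [Finset.sum_const, nsmul_eq_mul]
  have hfin : ∀ n, {i | ∀ y ∈ E, y (Nat.pair n i) < t n}.Finite := by
    intro n
    by_contra hinf
    obtain ⟨m, hm⟩ := exists_nat_gt (C / (2⁻¹ : ℝ) ^ t n)
    obtain ⟨s, hs, hsc⟩ := (show {i | ∀ y ∈ E, y (Nat.pair n i) < t n}.Infinite from
      hinf).exists_subset_card_eq m
    have h2 := hC (s.image (Nat.pair n)) fun c hc => by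
      obtain ⟨i, hi, rfl⟩ := Finset.mem_image.1 hc
      rw [Nat.unpair_pair]
      exact hs hi
    rw [hone, hsc] at h2
    rw [div_lt_iff₀ (by positivity)] at hm
    linarith
  refine ⟨fun n => (hfin n).toFinset, ?_, fun n i h => (hfin n).mem_toFinset.2 h⟩
  have h2 : ∀ m, ∑ n ∈ Finset.range m, (((hfin n).toFinset.card : ℝ≥0∞) *
      (2 : ℝ≥0∞)⁻¹ ^ t n) ≤ ENNReal.ofReal C := by
    intro m
    have h3 := hC ((Finset.range m).biUnion fun n => (hfin n).toFinset.image (Nat.pair n))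
      fun c hc => by
        obtain ⟨n, -, hn⟩ := Finset.mem_biUnion.1 hc
        obtain ⟨i, hi, rfl⟩ := Finset.mem_image.1 hn
        rw [Nat.unpair_pair]
        exact (hfin n).mem_toFinset.1 hi
    rw [Finset.sum_biUnion] at h3
    · simp only [hone] at h3
      refine le_trans (le_of_eq ?_) (ENNReal.ofReal_le_ofReal h3)
      rw [ENNReal.ofReal_sum_of_nonneg fun n _ => by positivity]
      refine Finset.sum_congr rfl fun n _ => ?_
      rw [ENNReal.ofReal_mul (by positivity), ENNReal.ofReal_natCast, inv_pow_eq]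
    · intro a _ b _ hab
      rw [Function.onFun, Finset.disjoint_left]
      intro c hc hd
      obtain ⟨i, -, rfl⟩ := Finset.mem_image.1 hc
      obtain ⟨j, -, h⟩ := Finset.mem_image.1 hd
      exact hab (Nat.pair_eq_pair.1 h).1.symm
  exact ne_top_of_le_ne_top ENNReal.ofReal_ne_top (ENNReal.tsum_le_of_sum_range_le h2)

end H99Cap
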