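import Pool.Agent.Lib.H97Proj.Meas

/-!
Localization: null sets attached to reals (definitions).
-/

set_option autoImplicit false

namespace H99Cap

open MeasureTheory Set Topology Filter H97Proj
open scoped ENNReal

/-- `A` is `t`-small: finite sets `φ n` with `∑ |φ n| * 2 ^ (- t n) < ∞` such that every `x ∈ A`
has `x n ∈ φ n` for all but finitely many `n`. -/
def Small (t : ℕ → ℕ) (A : Set Baire) : Prop :=
  ∃ φ : ℕ → Finset ℕ, (∑' n, ((φ n).card : ℝ≥0∞) * (2 : ℝ≥0∞)⁻¹ ^ t n) ≠ ∞ ∧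
    ∀ x ∈ A, ∀ᶠ n in atTop, x n ∈ φ n

/-- the null set attached to `x` -/
def NN (t : ℕ → ℕ) (x : Baire) : Set Baire := {y | ∃ᶠ n in atTop, t n ≤ y (Nat.pair n (x n))}

end H99Cap
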