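import Pool.Agent.Lib.H99Cap.LocDefs

/-!
Localization, piece L1: a small set gives a null set (Borel-Cantelli).
-/

set_option autoImplicit false

namespace H99Cap

open MeasureTheory Set Topology Filter H97Proj
open scoped ENNReal

theorem null_of_small (t : ℕ → ℕ) (A : Set Baire) (h : Small t A) :
    lam {y | ∃ x ∈ A, y ∈ NN t x} = 0 := by
  obtain ⟨φ, h1, h2⟩ := h
  have h3 : lam {y : Baire | ∃ᶠ n in atTop, ∃ i ∈ φ n, t n ≤ y (Nat.pair n i)} = 0 := by
    apply measure_setOf_frequently_eq_zero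
    refine ne_top_of_le_ne_top h1 (ENNReal.tsum_le_tsum fun n => ?_)
    have h4 : {y : Baire | ∃ i ∈ φ n, t n ≤ y (Nat.pair n i)} =
        ⋃ i ∈ φ n, {y : Baire | y (Nat.pair n i) ∈ {k | t n ≤ k}} := by
      ext y
      simp
    rw [h4]
    refine (measure_biUnion_finset_le (φ n) _).trans ?_
    rw [Finset.sum_congr rfl (fun i _ => lam_one (Nat.pair n i) {k | t n ≤ k})]
    rw [Finset.sum_const, geo_tail, nsmul_eq_mul]
  refine measure_mono_null ?_ h3
  rintro y ⟨x, hx, hy⟩
  have hy' : ∃ᶠ n in atTop, t n ≤ y (Nat.pair n (x n)) := hy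
  exact (hy'.and_eventually (h2 x hx)).mono fun n hn => ⟨x n, hn.2, hn.1⟩

end H99Cap
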