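import Pool.Agent.Lib.H99Cap.LocDefs

set_option autoImplicit false

namespace H99Cap

open MeasureTheory Set Topology Filter H97Proj
open scoped ENNReal

/-- A null set misses a nonempty closed set all of whose nonempty relatively open pieces have
positive measure. -/
theorem exists_closed (W : Set Baire) (hW : lam W = 0) :
    ∃ (K : Set Baire) (U : ℕ → Set Baire), IsClosed K ∧ K.Nonempty ∧ Disjoint K W ∧
      (∀ j, IsOpen (U j)) ∧
      (∀ V : Set Baire, IsOpen V → (K ∩ V).Nonempty → ∃ j, (K ∩ U j).Nonempty ∧ U j ⊆ V) ∧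
      ∀ j, (K ∩ U j).Nonempty → lam (K ∩ U j) ≠ 0 := by
  classical
  -- a closed set of positive measure missing `W`
  have hW' : lam (toMeasurable lam W) = 0 := by rw [measure_toMeasurable]; exact hW
  have hc : lam (toMeasurable lam W)ᶜ ≠ 0 := by
    intro h
    have h1 : lam (univ : Set Baire) ≤ lam (toMeasurable lam W) + lam (toMeasurable lam W)ᶜ := by
      rw [← union_compl_self (toMeasurable lam W)]
      exact measure_union_le _ _
    rw [hW', h, add_zero, measure_univ] at h1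
    exact absurd h1 (by simp)
  obtain ⟨K0, hK0, hK0c, hpos⟩ := (measurableSet_toMeasurable lam W).compl.exists_lt_isClosed_of_ne_top
    (measure_ne_top lam _) (pos_iff_ne_zero.2 hc)
  -- a countable basis
  obtain ⟨b, hbc, -, hb⟩ := TopologicalSpace.exists_countable_basis Baire
  have hbne : b.Nonempty := by
    by_contra h
    rw [not_nonempty_iff_eq_empty] at h
    have := hb.sUnion_eq
    rw [h, sUnion_empty] at this
    exact (Set.univ_nonempty (α := Baire)).ne_empty this.symm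
  obtain ⟨U, hU⟩ := hbc.exists_eq_range hbne
  have hUo : ∀ j, IsOpen (U j) := fun j => hb.isOpen (by rw [hU]; exact mem_range_self j)
  let B : Set Baire := ⋃ j, ⋃ (_ : lam (K0 ∩ U j) = 0), U j
  have hBo : IsOpen B := isOpen_iUnion fun j => isOpen_iUnion fun _ => hUo j
  have hB0 : lam (K0 ∩ B) = 0 := by
    have h1 : K0 ∩ B = ⋃ j, ⋃ (_ : lam (K0 ∩ U j) = 0), K0 ∩ U j := by
      simp only [B, inter_iUnion]
    rw [h1, measure_iUnion_null_iff]
    intro j
    rw [measure_iUnion_null_iff]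
    exact fun h => h
  have hsub : ∀ V : Set Baire, lam (K0 ∩ V) ≤ lam ((K0 \ B) ∩ V) := by
    intro V
    have h1 : K0 ∩ V ⊆ ((K0 \ B) ∩ V) ∪ (K0 ∩ B) := by
      intro x hx
      by_cases h : x ∈ B
      · exact Or.inr ⟨hx.1, h⟩
      · exact Or.inl ⟨⟨hx.1, h⟩, hx.2⟩
    calc lam (K0 ∩ V) ≤ lam (((K0 \ B) ∩ V) ∪ (K0 ∩ B)) := measure_mono h1
      _ ≤ lam ((K0 \ B) ∩ V) + lam (K0 ∩ B) := measure_union_le _ _
      _ = lam ((K0 \ B) ∩ V) := by rw [hB0, add_zero]
  refine ⟨K0 \ B, U, hK0c.sdiff hBo, ?_, ?_, hUo, ?_, ?_⟩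
  · by_contra h
    rw [not_nonempty_iff_eq_empty] at h
    have h1 := hsub univ
    rw [h, inter_univ, empty_inter, measure_empty] at h1
    exact absurd h1 (not_le.2 hpos)
  · rw [Set.disjoint_left]
    intro x hx hxW
    exact hK0 hx.1 (subset_toMeasurable _ _ hxW)
  · rintro V hV ⟨x, hx, hxV⟩
    obtain ⟨u, hu, hxu, huV⟩ := hb.exists_subset_of_mem_open hxV hV
    rw [hU] at hu
    obtain ⟨j, rfl⟩ := hu
    exact ⟨j, ⟨x, hx, hxu⟩, huV⟩
  · rintro j ⟨x, hx, hxj⟩ h
    have h1 := hsub (U j)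
    rw [h, nonpos_iff_eq_zero] at h1
    exact hx.2 (mem_iUnion₂.2 ⟨j, h1, hxj⟩)

end H99Cap
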