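import Pool.Agent.Lib.H97Proj.Filt

set_option autoImplicit false

namespace H99Cap

open MeasureTheory Set Topology Filter H97Proj
open scoped ENNReal

/-- countably many slaloms are swallowed by one. -/
theorem union_slalom (t : ℕ → ℕ) (φ : ℕ → ℕ → Finset ℕ)
    (h : ∀ j, (∑' n, ((φ j n).card : ℝ≥0∞) * (2 : ℝ≥0∞)⁻¹ ^ t n) ≠ ∞) :
    ∃ ψ : ℕ → Finset ℕ, (∑' n, ((ψ n).card : ℝ≥0∞) * (2 : ℝ≥0∞)⁻¹ ^ t n) ≠ ∞ ∧
      ∀ j, ∀ᶠ n in atTop, φ j n ⊆ ψ n := by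
  classical
  have hN : ∀ j, ∃ N : ℕ, (∑' n, ((φ j (n + N)).card : ℝ≥0∞) * (2 : ℝ≥0∞)⁻¹ ^ t (n + N)) ≤
      (2 : ℝ≥0∞)⁻¹ ^ j := by
    intro j
    have h1 := ENNReal.tendsto_sum_nat_add
      (fun n => ((φ j n).card : ℝ≥0∞) * (2 : ℝ≥0∞)⁻¹ ^ t n) (h j)
    have h2 : (0 : ℝ≥0∞) < (2 : ℝ≥0∞)⁻¹ ^ j := by
      apply ENNReal.pow_pos
      simp
    obtain ⟨N, hN⟩ := ((tendsto_order.1 h1).2 _ h2).exists
    exact ⟨N, hN.le⟩
  choose N hN using hN
  let J : ℕ → Finset ℕ := fun n => (Finset.range (n + 1)).filter fun j => N j ≤ n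
  let g : ℕ → ℕ → ℝ≥0∞ := fun j n =>
    if N j ≤ n then ((φ j n).card : ℝ≥0∞) * (2 : ℝ≥0∞)⁻¹ ^ t n else 0
  have hg : ∀ j, ∑' n, g j n ≤ (2 : ℝ≥0∞)⁻¹ ^ j := by
    intro j
    rw [← Summable.sum_add_tsum_nat_add' (f := g j) (k := N j) ENNReal.summable]
    have h1 : ∑ i ∈ Finset.range (N j), g j i = 0 := by
      apply Finset.sum_eq_zero
      intro i hi
      have : ¬ N j ≤ i := not_le.2 (Finset.mem_range.1 hi)
      simp [g, this]
    rw [h1, zero_add]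
    refine le_trans (le_of_eq ?_) (hN j)
    congr 1
    ext n
    simp [g]
  refine ⟨fun n => (J n).biUnion fun j => φ j n, ?_, ?_⟩
  · have h1 : (∑' n, (((J n).biUnion fun j => φ j n).card : ℝ≥0∞) * (2 : ℝ≥0∞)⁻¹ ^ t n) ≤
        ∑' n, ∑' j, g j n := by
      refine ENNReal.tsum_le_tsum fun n => ?_
      have h2 : (((J n).biUnion fun j => φ j n).card : ℝ≥0∞) ≤
          ∑ j ∈ J n, ((φ j n).card : ℝ≥0∞) := by
        exact_mod_cast Finset.card_biUnion_le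
      calc (((J n).biUnion fun j => φ j n).card : ℝ≥0∞) * (2 : ℝ≥0∞)⁻¹ ^ t n
          ≤ (∑ j ∈ J n, ((φ j n).card : ℝ≥0∞)) * (2 : ℝ≥0∞)⁻¹ ^ t n := by gcongr
        _ = ∑ j ∈ J n, g j n := by
            rw [Finset.sum_mul]
            refine Finset.sum_congr rfl fun j hj => ?_
            have : N j ≤ n := (Finset.mem_filter.1 hj).2
            simp [g, this]
        _ ≤ ∑' j, g j n := ENNReal.sum_le_tsum _
    have h3 : ∑' n, ∑' j, g j n ≤ 2 := by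
      rw [ENNReal.tsum_comm]
      refine le_trans (ENNReal.tsum_le_tsum hg) ?_
      rw [ENNReal.tsum_geometric]
      simp
    exact ne_top_of_le_ne_top (by simp) (h1.trans h3)
  · intro j
    filter_upwards [eventually_ge_atTop (N j), eventually_ge_atTop j] with n h1 h2
    refine Finset.subset_biUnion_of_mem (fun j => φ j n) ?_
    simp only [J, Finset.mem_filter, Finset.mem_range]
    omega

end H99Cap
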