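import Pool.Agent.Lib.H99Cap.Cap
import Pool.Agent.Lib.H99Cap.LocNull
import Pool.Agent.Lib.H99Cap.LocBound
import Pool.Agent.Lib.H99Cap.LocUnion
import Pool.Agent.Lib.H99Cap.LocSupp
import Pool.Agent.Lib.H99Cap.LocBaire

/-!
Localization dichotomy: assembly.
-/

set_option autoImplicit false

namespace H99Cap

open MeasureTheory Set Topology Filter H97Proj
open scoped ENNReal

/-- Bartoszynski's lemma: if the null sets attached to the elements of `A` have a null union, then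
`A` is small. -/
theorem small_of_null (t : ℕ → ℕ) (A : Set Baire)
    (h : lam {y | ∃ x ∈ A, y ∈ NN t x} = 0) : Small t A := by
  classical
  obtain ⟨K, U, hK, hne, hd, hUo, hUb, hpos⟩ := exists_closed _ h
  have hφ : ∀ j, ∃ φ : ℕ → Finset ℕ,
      (∑' n, ((φ n).card : ℝ≥0∞) * (2 : ℝ≥0∞)⁻¹ ^ t n) ≠ ∞ ∧
      ((K ∩ U j).Nonempty → ∀ n i, (∀ y ∈ K ∩ U j, y (Nat.pair n i) < t n) → i ∈ φ n) := by
    intro j
    by_cases hj : (K ∩ U j).Nonempty
    · obtain ⟨φ, h1, h2⟩ := exists_slalom t (K ∩ U j) (hpos j hj)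
      exact ⟨φ, h1, fun _ => h2⟩
    · exact ⟨fun _ => ∅, by simp, fun h' => absurd h' hj⟩
  choose φ hφ1 hφ2 using hφ
  obtain ⟨ψ, hψ1, hψ2⟩ := union_slalom t φ hφ1
  refine ⟨ψ, hψ1, fun x hx => ?_⟩
  let C : ℕ → Set Baire := fun m => {y | ∀ n, m ≤ n → y (Nat.pair n (x n)) < t n}
  have hC : ∀ m, IsClosed (C m) := by
    intro m
    have : C m = ⋂ n, {y : Baire | m ≤ n → y (Nat.pair n (x n)) < t n} := by
      ext y; simp [C]
    rw [this]
    refine isClosed_iInter fun n => ?_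
    by_cases hmn : m ≤ n
    · simp only [hmn, forall_true_left]
      exact (isClosed_discrete {a | a < t n}).preimage (by fun_prop)
    · simp [hmn]
  have hcov : K ⊆ ⋃ m, C m := by
    intro y hy
    have h1 : y ∉ NN t x := fun h2 => (Set.disjoint_left.1 hd hy) ⟨x, hx, h2⟩
    have h2 : ∀ᶠ n in atTop, ¬ (t n ≤ y (Nat.pair n (x n))) := by
      simpa [NN, Filter.not_frequently] using h1
    obtain ⟨m, hm⟩ := eventually_atTop.1 h2
    exact mem_iUnion.2 ⟨m, fun n hn => not_le.1 (hm n hn)⟩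
  obtain ⟨m, V, hV, hVne, hVC⟩ := baire_piece K hK hne C hC hcov
  obtain ⟨j, hj, hjV⟩ := hUb V hV hVne
  filter_upwards [hψ2 j, eventually_ge_atTop m] with n h1 h2
  apply h1
  apply hφ2 j hj
  intro y hy
  exact hVC ⟨hy.1, hjV hy.2⟩ n h2


lemma continuous_eval_pair (n : ℕ) :
    Continuous fun p : Baire × Baire => p.2 (Nat.pair n (p.1 n)) := by
  rw [continuous_iff_continuousAt]
  rintro ⟨x, y⟩
  have h1 : (fun p : Baire × Baire => p.2 (Nat.pair n (x n))) =ᶠ[𝓝 (x, y)]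
      fun p : Baire × Baire => p.2 (Nat.pair n (p.1 n)) := by
    have h2 : IsOpen {p : Baire × Baire | p.1 n = x n} :=
      (isOpen_discrete {x n}).preimage (by fun_prop : Continuous fun p : Baire × Baire => p.1 n)
    filter_upwards [h2.mem_nhds rfl] with p hp
    change p.1 n = x n at hp
    rw [hp]
  refine ContinuousAt.congr ?_ h1
  exact (by fun_prop : Continuous fun p : Baire × Baire => p.2 (Nat.pair n (x n))).continuousAt

lemma isPi_NN {n : ℕ} (hn : 1 ≤ n) (t : ℕ → ℕ) :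
    IsPi n (Baire × Baire) {p | p.2 ∈ NN t p.1} := by
  change IsSigma n (Baire × Baire) {p | p.2 ∈ NN t p.1}ᶜ
  refine isSigma_mono hn ?_
  have h1 : {p : Baire × Baire | p.2 ∈ NN t p.1}ᶜ =
      ⋃ m, {p : Baire × Baire | ∀ j, m ≤ j → p.2 (Nat.pair j (p.1 j)) < t j} := by
    ext p
    simp only [NN, mem_compl_iff, mem_setOf_eq, Filter.not_frequently, not_le, mem_iUnion,
      eventually_atTop]
  rw [h1]
  refine IsSigma.iUnion fun m => ?_
  have h2 : IsClosed {p : Baire × Baire | ∀ j, m ≤ j → p.2 (Nat.pair j (p.1 j)) < t j} := by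
    simp only [setOf_forall]
    refine isClosed_iInter fun j => isClosed_iInter fun _ => ?_
    exact (isClosed_discrete {a | a < t j}).preimage (continuous_eval_pair j)
  have h3 : IsSigma 0 (Baire × Baire)
      {p : Baire × Baire | ∀ j, m ≤ j → p.2 (Nat.pair j (p.1 j)) < t j}ᶜ := h2.isOpen_compl
  have h4 := h3.compl_succ
  rwa [compl_compl] at h4

theorem localization {n k : ℕ} (hn : 1 ≤ n) (hk : 1 ≤ k)
    (hLM : ∀ A : Set Baire, IsSigma k Baire A → NullMeasurableSet A lam)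
    (hU : ∀ R : Set (Baire × Baire), IsPi n (Baire × Baire) R →
      ∃ S ⊆ R, IsSigma k (Baire × Baire) S ∧
        ∀ x, (∃ y, (x, y) ∈ R) → ∃! y, (x, y) ∈ S)
    (t : ℕ → ℕ) (A : Set Baire) (hA : IsSigma (n + 1) Baire A) :
    Small t A ∨ ∃ P ⊆ A, IsCompact P ∧ ¬ Small t P := by
  obtain ⟨P, hPc, hPA, hP0⟩ := capac hk hLM hU _ (isPi_NN hn t) A hA
  by_cases hP : ∀ m, Small t (P m)
  · left
    apply small_of_null
    have h1 : lam (⋃ m, {y | ∃ x ∈ P m, (x, y) ∈ {p : Baire × Baire | p.2 ∈ NN t p.1}}) = 0 := by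
      rw [measure_iUnion_null_iff]
      intro m
      exact null_of_small t (P m) (hP m)
    refine measure_mono_null ?_ (measure_union_null hP0 h1)
    intro y hy
    by_cases h : y ∈ ⋃ m, {y | ∃ x ∈ P m, (x, y) ∈ {p : Baire × Baire | p.2 ∈ NN t p.1}}
    · exact Or.inr h
    · exact Or.inl ⟨hy, h⟩
  · right
    push Not at hP
    obtain ⟨m, hm⟩ := hP
    exact ⟨P m, hPA m, hPc m, hm⟩

end H99Cap
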